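import Pool.Agent.Lib.MP_ccbbf6_gt.ML
import Pool.Agent.Lib.MP_ccbbf6_gt.Cone

/-!
Closedness of geodesics (block CL), abstract form adapted to the two-point function. `E`, `F` are the tangent spaces
at `q`, `p`; `D a b = dist (q + a) (p + b)` in charts; `(w, x) ∈ L`: the unit geodesic starting at `q` with velocity
`w` is at time pi in `p` with velocity `-x`; `R a w x`: some geodesic of length `D a 0` from `q + a` to `p` arrives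
with velocity `-x`, and `w` is the direction at `q` of the geodesic from `q` to its point at a fixed distance.
-/

set_option autoImplicit false
set_option linter.unusedSectionVars false

open Filter Topology RealInnerProductSpace

namespace Pool.Agent.Lib.MP_ccbbf6_gt.CL

variable {E F : Type*} [NormedAddCommGroup E] [InnerProductSpace ℝ E] [FiniteDimensional ℝ E]
  [NormedAddCommGroup F] [InnerProductSpace ℝ F] [FiniteDimensional ℝ F]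

/-- The local data at a pair of points at distance pi. -/
structure LDat (E F : Type*) [NormedAddCommGroup E] [InnerProductSpace ℝ E]
    [NormedAddCommGroup F] [InnerProductSpace ℝ F] where
  D : E → F → ℝ
  L : Set (E × F)
  R : E → E → F → Prop
  r0 : ℝ
  C : ℝ
  r0_pos : 0 < r0
  C_nonneg : 0 ≤ C
  /-- diameter at most pi -/
  diam : ∀ a b, D a b ≤ Real.pi
  zero : D 0 0 = Real.pi
  unit : ∀ w x, (w, x) ∈ L → ‖w‖ = 1 ∧ ‖x‖ = 1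
  closed : IsClosed L
  nonempty : L.Nonempty
  /-- first variation -/
  var : ∀ w x, (w, x) ∈ L → ∀ a b, ‖a‖ < r0 → ‖b‖ < r0 →
    D a b ≤ Real.pi - ⟪a, w⟫ - ⟪b, x⟫ + C * (‖a‖ ^ 2 + ‖b‖ ^ 2)
  /-- shifting a geodesic along itself -/
  shift : ∀ w x, (w, x) ∈ L → ∀ r : ℝ, |r| < r0 → ∃ z y,
    D z y = Real.pi ∧ ‖z - r • w‖ ≤ C * r ^ 2 ∧ ‖y + r • x‖ ≤ C * r ^ 2
  /-- the geodesic from `p` through `q + a`, extended to length pi in both directions -/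
  ext : ∀ a, ‖a‖ < r0 → Real.pi - D a 0 ≤ 2 * ‖a‖ ∧ ∃ w x, R a w x ∧ ‖w‖ = 1 ∧ ‖x‖ = 1 ∧
    Real.pi ≤ D a 0 + ⟪a, w⟫ + C * ‖a‖ ^ 2 ∧
    (∃ y, D a y = Real.pi ∧ ‖y + (Real.pi - D a 0) • x‖ ≤ C * ‖a‖ ^ 2) ∧
    (∃ z, D z 0 = Real.pi ∧ ‖z - a‖ ≤ 2 * (Real.pi - D a 0))
  lim : ∀ (a w : ℕ → E) (x : ℕ → F) (w' : E) (x' : F), Tendsto a atTop (𝓝 0) → Tendsto w atTop (𝓝 w') →
    Tendsto x atTop (𝓝 x') → (∀ n, R (a n) (w n) (x n)) → (w', x') ∈ L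
  /-- second order: an arc of directions from `q`, ending at `p` for `0 ≤ s ≤ s1` -/
  arc : ∀ w x e, (w, x) ∈ L → ‖e‖ = 1 → ⟪w, e⟫ = 0 → ∀ s1 : ℝ, 0 < s1 →
    (∀ s, 0 ≤ s → s ≤ s1 → ∃ x', (Real.cos s • w + Real.sin s • e, x') ∈ L) →
    ∃ C' s2 : ℝ, 0 ≤ C' ∧ 0 < s2 ∧ ∀ s, 0 < s → s < s2 → ∃ y, ‖y‖ ≤ C' * s ^ 2 ∧ D 0 y = Real.pi ∧
      ∀ a, ‖a‖ < s2 → D a 0 ≤ Real.pi - ⟪a, Real.cos s • w - Real.sin s • e⟫ + ⟪y, x⟫ + C' * (‖a‖ ^ 2 + s ^ 3)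

variable (𝒟 : LDat E F)

namespace LDat

/-- The directions at `q` of the geodesics ending at `p`. -/
def Lam : Set E := {w | ∃ x, (w, x) ∈ 𝒟.L}

/-- The angle formula (i). -/
theorem angle {u w : E} {x y : F} (h1 : (u, x) ∈ 𝒟.L) (h2 : (w, y) ∈ 𝒟.L) : ⟪u, w⟫ = ⟪x, y⟫ := by
  have hr0 := 𝒟.r0_pos
  have hC := 𝒟.C_nonneg
  obtain ⟨hu1, hx1⟩ := 𝒟.unit _ _ h1
  obtain ⟨hw1, hy1⟩ := 𝒟.unit _ _ h2
  set K : ℝ := 𝒟.C * (2 * (1 + 𝒟.C)) ^ 2 + 2 * 𝒟.C with hK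
  have hK0 : 0 ≤ K := by positivity
  have main : ∀ r : ℝ, |r| ≤ 1 → |r| * (1 + 𝒟.C) < 𝒟.r0 → r * (⟪u, w⟫ - ⟪x, y⟫) ≤ K * r ^ 2 := by
    intro r hr1 hr
    have hrr : |r| < 𝒟.r0 := by nlinarith [abs_nonneg r]
    obtain ⟨z, b, hG, hz, hb⟩ := 𝒟.shift u x h1 r hrr
    have hr2 : r ^ 2 ≤ |r| := by rw [← sq_abs]; nlinarith [abs_nonneg r]
    have hzn : ‖z‖ ≤ |r| * (1 + 𝒟.C) := by
      have : ‖z‖ ≤ ‖z - r • u‖ + ‖r • u‖ := by simpa using norm_add_le (z - r • u) (r • u)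
      rw [norm_smul, Real.norm_eq_abs, hu1] at this
      nlinarith
    have hbn : ‖b‖ ≤ |r| * (1 + 𝒟.C) := by
      have : ‖b‖ ≤ ‖b + r • x‖ + ‖r • x‖ := by simpa using norm_sub_le (b + r • x) (r • x)
      rw [norm_smul, Real.norm_eq_abs, hx1] at this
      nlinarith
    have e2 := 𝒟.var _ _ h2 z b (hzn.trans_lt hr) (hbn.trans_lt hr)
    rw [hG] at e2
    have e3 : |⟪z, w⟫ - r * ⟪u, w⟫| ≤ 𝒟.C * r ^ 2 := by
      rw [← real_inner_smul_left, ← inner_sub_left]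
      calc |⟪z - r • u, w⟫| ≤ ‖z - r • u‖ * ‖w‖ := abs_real_inner_le_norm _ _
        _ ≤ _ := by rw [hw1, mul_one]; exact hz
    have e4 : |⟪b, y⟫ + r * ⟪x, y⟫| ≤ 𝒟.C * r ^ 2 := by
      rw [← real_inner_smul_left, ← inner_add_left]
      calc |⟪b + r • x, y⟫| ≤ ‖b + r • x‖ * ‖y‖ := abs_real_inner_le_norm _ _
        _ ≤ _ := by rw [hy1, mul_one]; exact hb
    have e5 : (‖z‖ + ‖b‖) ^ 2 ≤ (2 * (1 + 𝒟.C)) ^ 2 * r ^ 2 := by
      rw [← mul_pow, ← sq_abs (2 * (1 + 𝒟.C) * r), abs_mul, abs_of_nonneg (by positivity : 0 ≤ 2 * (1 + 𝒟.C))]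
      apply pow_le_pow_left₀ (by positivity)
      linarith
    have e5' : ‖z‖ ^ 2 + ‖b‖ ^ 2 ≤ (2 * (1 + 𝒟.C)) ^ 2 * r ^ 2 := by
      nlinarith [norm_nonneg z, norm_nonneg b]
    have e6 := mul_le_mul_of_nonneg_left e5' hC
    rw [abs_le] at e3 e4
    nlinarith [e3.1, e3.2, e4.1, e4.2]
  have ev : ∀ᶠ r : ℝ in 𝓝 0, |r| ≤ 1 ∧ |r| * (1 + 𝒟.C) < 𝒟.r0 := by
    have c1 : Tendsto (fun r : ℝ => |r|) (𝓝 0) (𝓝 0) := by simpa using (continuous_abs.tendsto (0 : ℝ))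
    have c2 : Tendsto (fun r : ℝ => |r| * (1 + 𝒟.C)) (𝓝 0) (𝓝 0) := by simpa using c1.mul_const (1 + 𝒟.C)
    filter_upwards [c1.eventually (eventually_le_nhds one_pos), c2.eventually (eventually_lt_nhds hr0)] with r a1 a2
    exact ⟨a1, a2⟩
  obtain ⟨ρ, hρ, hρ'⟩ := Metric.eventually_nhds_iff.1 ev
  have c0 : Tendsto (fun r : ℝ => K * r) (𝓝[>] 0) (𝓝 0) := by
    have : Tendsto (fun r : ℝ => K * r) (𝓝 0) (𝓝 (K * 0)) := tendsto_id.const_mul K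
    rw [mul_zero] at this
    exact this.mono_left nhdsWithin_le_nhds
  have hsmall : ∀ᶠ r : ℝ in 𝓝[>] 0, 0 < r ∧ r < ρ := by
    filter_upwards [self_mem_nhdsWithin, nhdsWithin_le_nhds (eventually_lt_nhds hρ)] with r a1 a2
    exact ⟨a1, a2⟩
  apply le_antisymm
  · rw [← sub_nonpos]
    refine ge_of_tendsto c0 ?_
    filter_upwards [hsmall] with r hr
    have h3 := hρ' (y := r) (by rw [Real.dist_eq, sub_zero, abs_of_pos hr.1]; exact hr.2)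
    have h4 := main r h3.1 h3.2
    have : r * (⟪u, w⟫ - ⟪x, y⟫) ≤ r * (K * r) := by nlinarith
    exact le_of_mul_le_mul_left this hr.1
  · rw [← sub_nonpos]
    refine ge_of_tendsto c0 ?_
    filter_upwards [hsmall] with r hr
    have h3 := hρ' (y := -r) (by rw [Real.dist_eq, sub_zero, abs_neg, abs_of_pos hr.1]; exact hr.2)
    have h4 := main (-r) h3.1 h3.2
    have : r * (⟪x, y⟫ - ⟪u, w⟫) ≤ r * (K * r) := by nlinarith
    exact le_of_mul_le_mul_left this hr.1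

theorem compact : IsCompact 𝒟.L := by
  have hsub : 𝒟.L ⊆ Metric.closedBall 0 1 := by
    rintro ⟨w, x⟩ hv
    obtain ⟨h1, h2⟩ := 𝒟.unit _ _ hv
    rw [mem_closedBall_zero_iff, Prod.norm_def, h1, h2, max_self]
  exact (isCompact_closedBall (0 : E × F) 1).of_isClosed_subset 𝒟.closed hsub

/-- (ii) for one radius. -/
theorem step {e : E} (he : ‖e‖ = 1) : ∃ ρ K : ℝ, 0 < ρ ∧ 0 ≤ K ∧ ∀ r, 0 < r → r < ρ → ∃ (z w : E) (x : F),
    𝒟.R (r • e) w x ∧ ‖w‖ = 1 ∧ ‖x‖ = 1 ∧ 𝒟.D z 0 = Real.pi ∧ 0 ≤ Real.pi - 𝒟.D (r • e) 0 ∧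
    Real.pi - 𝒟.D (r • e) 0 ≤ 2 * r ∧ ‖z - r • e‖ ≤ 2 * (Real.pi - 𝒟.D (r • e) 0) ∧
    (∀ v ∈ 𝒟.Lam, r * ⟪e, v⟫ ≤ (Real.pi - 𝒟.D (r • e) 0) + K * r ^ 2) ∧
    (Real.pi - 𝒟.D (r • e) 0) ≤ r * ⟪e, w⟫ + K * r ^ 2 ∧
    (∀ v y, (v, y) ∈ 𝒟.L → r * ⟪e, v⟫ ≤ (Real.pi - 𝒟.D (r • e) 0) * ⟪x, y⟫ + K * r ^ 2) := by
  have hr0 := 𝒟.r0_pos
  have hC := 𝒟.C_nonneg
  have hD00 := 𝒟.zero
  set M : ℝ := 5 + 𝒟.C * 𝒟.r0 with hM
  have hM5 : 5 ≤ M := by have : 0 ≤ 𝒟.C * 𝒟.r0 := by positivity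
                         linarith
  have hM2 : 25 ≤ M ^ 2 := by nlinarith
  refine ⟨𝒟.r0 / M, 10 * 𝒟.C * M ^ 2, by positivity, by positivity, fun r hr hrρ => ?_⟩
  have hrM : r * M < 𝒟.r0 := (lt_div_iff₀ (by linarith)).1 hrρ
  have hrr : r < 𝒟.r0 := by nlinarith
  have hne : ‖r • e‖ = r := by rw [norm_smul, Real.norm_eq_abs, abs_of_pos hr, he, mul_one]
  have ha : ‖r • e‖ < 𝒟.r0 := by rw [hne]; exact hrr
  obtain ⟨hd2, w, x, hR, hw, hx, hpi, ⟨y, hDy, hy⟩, z, hDz, hz⟩ := 𝒟.ext (r • e) ha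
  rw [hne] at hd2 hpi hy
  have hd0 : 0 ≤ Real.pi - 𝒟.D (r • e) 0 := by
    have := 𝒟.diam (r • e) 0
    linarith
  set d : ℝ := Real.pi - 𝒟.D (r • e) 0 with hd
  have hCr : 𝒟.C * r ^ 2 ≤ r * (𝒟.C * 𝒟.r0) := by nlinarith [mul_nonneg hC hr.le]
  have hyn : r + ‖y‖ ≤ r * M := by
    have h2 : ‖y‖ ≤ ‖y + d • x‖ + ‖d • x‖ := by simpa using norm_sub_le (y + d • x) (d • x)
    rw [norm_smul, Real.norm_eq_abs, abs_of_nonneg hd0, hx, mul_one] at h2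
    rw [hM]
    linarith
  have hy' : ‖y‖ < 𝒟.r0 := by linarith
  have h0F : ‖(0 : F)‖ < 𝒟.r0 := by simpa using hr0
  have hMr : (r * M) ^ 2 = M ^ 2 * r ^ 2 := by ring
  have hCr0 : 0 ≤ 𝒟.C * r ^ 2 := by positivity
  have hCM := mul_le_mul_of_nonneg_left hM2 hCr0
  refine ⟨z, w, x, hR, hw, hx, hDz, hd0, hd2, hz, ?_, ?_, ?_⟩
  · rintro v ⟨ξ, hv⟩
    have h1 := 𝒟.var _ _ hv (r • e) 0 ha h0F
    rw [norm_zero, inner_zero_left, sub_zero, hne, real_inner_smul_left] at h1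
    nlinarith
  · rw [real_inner_smul_left] at hpi
    nlinarith
  · intro v ξ hv
    have h1 := 𝒟.var _ _ hv (r • e) y ha hy'
    rw [hne, hDy, real_inner_smul_left] at h1
    have h2 : |⟪y, ξ⟫ + d * ⟪x, ξ⟫| ≤ 𝒟.C * r ^ 2 := by
      rw [← real_inner_smul_left, ← inner_add_left]
      refine (abs_real_inner_le_norm _ _).trans ?_
      rw [(𝒟.unit _ _ hv).2, mul_one]
      exact hy
    have h3 : r ^ 2 + ‖y‖ ^ 2 ≤ M ^ 2 * r ^ 2 := by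
      rw [← hMr]
      have := pow_le_pow_left₀ (by positivity) hyn 2
      nlinarith [norm_nonneg y]
    have h4 := mul_le_mul_of_nonneg_left h3 hC
    have h5 := (abs_le.1 h2).1
    nlinarith

/-- (ii): limits of the geodesics through `q + r e`. -/
theorem key {e : E} (he : ‖e‖ = 1) (t : ℕ → ℝ) (ht : ∀ n, 0 < t n) (ht0 : Tendsto t atTop (𝓝 0)) :
    ∃ w ∈ 𝒟.Lam, 0 ≤ ⟪e, w⟫ ∧ (∀ v ∈ 𝒟.Lam, ⟪e, v⟫ ≤ ⟪e, w⟫) ∧ (∀ v ∈ 𝒟.Lam, ⟪e, v⟫ ≤ ⟪e, w⟫ * ⟪w, v⟫) ∧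
      (⟪e, w⟫ = 0 → ∃ (φ : ℕ → ℕ) (a : ℕ → E), Tendsto φ atTop atTop ∧ (∀ᶠ n in atTop, 𝒟.D (a n) 0 = Real.pi) ∧
        Tendsto (fun n => (t (φ n))⁻¹ • a n) atTop (𝓝 e)) := by
  obtain ⟨ρ, K, hρ, hK, hst⟩ := 𝒟.step he
  -- a tail of the sequence is below ρ
  obtain ⟨N, hN⟩ := (ht0.eventually (eventually_lt_nhds hρ)).exists_forall_of_atTop
  have hst' : ∀ n, ∃ (z w : E) (x : F),
    𝒟.R (t (n + N) • e) w x ∧ ‖w‖ = 1 ∧ ‖x‖ = 1 ∧ 𝒟.D z 0 = Real.pi ∧ 0 ≤ Real.pi - 𝒟.D (t (n + N) • e) 0 ∧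
    Real.pi - 𝒟.D (t (n + N) • e) 0 ≤ 2 * t (n + N) ∧
    ‖z - t (n + N) • e‖ ≤ 2 * (Real.pi - 𝒟.D (t (n + N) • e) 0) ∧
    (∀ v ∈ 𝒟.Lam, t (n + N) * ⟪e, v⟫ ≤ (Real.pi - 𝒟.D (t (n + N) • e) 0) + K * t (n + N) ^ 2) ∧
    (Real.pi - 𝒟.D (t (n + N) • e) 0) ≤ t (n + N) * ⟪e, w⟫ + K * t (n + N) ^ 2 ∧
    (∀ v y, (v, y) ∈ 𝒟.L → t (n + N) * ⟪e, v⟫ ≤ (Real.pi - 𝒟.D (t (n + N) • e) 0) * ⟪x, y⟫ + K * t (n + N) ^ 2) :=
    fun n => hst (t (n + N)) (ht _) (hN _ (Nat.le_add_left _ _))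
  choose z w x hR hw hx hDz hd0 hd2 hzz hv1 hw2 hv3 using hst'
  have hs0 : Tendsto (fun n => t (n + N)) atTop (𝓝 0) := ht0.comp (tendsto_add_atTop_nat N)
  set s : ℕ → ℝ := fun n => t (n + N) with hs
  have hspos : ∀ n, 0 < s n := fun n => ht _
  set c : ℕ → ℝ := fun n => (Real.pi - 𝒟.D (s n • e) 0) / s n with hc
  have hcd : ∀ n, Real.pi - 𝒟.D (s n • e) 0 = c n * s n := fun n => by
    rw [hc]; field_simp [(hspos n).ne']
  have hc0 : ∀ n, 0 ≤ c n := fun n => div_nonneg (hd0 n) (hspos n).le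
  have hc2 : ∀ n, c n ≤ 2 := fun n => by
    rw [hc]; exact (div_le_iff₀ (hspos n)).2 (hd2 n)
  -- compactness
  have hcomp : IsCompact ((Metric.closedBall (0 : E) 1 ×ˢ Metric.closedBall (0 : F) 1) ×ˢ Set.Icc (0 : ℝ) 2) :=
    ((isCompact_closedBall _ _).prod (isCompact_closedBall _ _)).prod isCompact_Icc
  obtain ⟨⟨⟨w', x'⟩, c'⟩, -, φ, hφ, hlim⟩ := hcomp.tendsto_subseq (x := fun n => ((w n, x n), c n)) (fun n => by
    refine ⟨⟨?_, ?_⟩, hc0 n, hc2 n⟩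
    · simpa using (hw n).le
    · simpa using (hx n).le)
  have hlw : Tendsto (fun n => w (φ n)) atTop (𝓝 w') := ((continuous_fst.comp continuous_fst).tendsto _).comp hlim
  have hlx : Tendsto (fun n => x (φ n)) atTop (𝓝 x') := ((continuous_snd.comp continuous_fst).tendsto _).comp hlim
  have hlc : Tendsto (fun n => c (φ n)) atTop (𝓝 c') := (continuous_snd.tendsto _).comp hlim
  have hls : Tendsto (fun n => s (φ n)) atTop (𝓝 0) := hs0.comp hφ.tendsto_atTop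
  have hmem : (w', x') ∈ 𝒟.L := by
    refine 𝒟.lim (fun n => s (φ n) • e) (fun n => w (φ n)) (fun n => x (φ n)) w' x' ?_ hlw hlx (fun n => hR _)
    simpa using hls.smul_const e
  obtain ⟨hw1, hx1⟩ := 𝒟.unit _ _ hmem
  have hKs : Tendsto (fun n => K * s (φ n)) atTop (𝓝 0) := by simpa using hls.const_mul K
  have hA : ∀ v ∈ 𝒟.Lam, ⟪e, v⟫ ≤ c' := by
    intro v hv
    have h1 : Tendsto (fun n => c (φ n) + K * s (φ n)) atTop (𝓝 (c' + 0)) := hlc.add hKs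
    rw [add_zero] at h1
    refine ge_of_tendsto h1 (Eventually.of_forall fun n => ?_)
    have h2 := hv1 (φ n) v hv
    rw [hcd] at h2
    have h3 : s (φ n) * ⟪e, v⟫ ≤ s (φ n) * (c (φ n) + K * s (φ n)) := by
      calc s (φ n) * ⟪e, v⟫ ≤ _ := h2
        _ = _ := by rw [hs]; ring
    exact le_of_mul_le_mul_left h3 (hspos _)
  have hB : c' ≤ ⟪e, w'⟫ := by
    have h1 : Tendsto (fun n => ⟪e, w (φ n)⟫ + K * s (φ n)) atTop (𝓝 (⟪e, w'⟫ + 0)) :=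
      (tendsto_const_nhds.inner hlw).add hKs
    rw [add_zero] at h1
    refine le_of_tendsto_of_tendsto' hlc h1 fun n => ?_
    have h3 := hw2 (φ n)
    rw [hcd] at h3
    have h4 : s (φ n) * c (φ n) ≤ s (φ n) * (⟪e, w (φ n)⟫ + K * s (φ n)) := by
      calc s (φ n) * c (φ n) = c (φ n) * s (φ n) := by ring
        _ ≤ _ := h3
        _ = _ := by rw [hs]; ring
    exact le_of_mul_le_mul_left h4 (hspos _)
  have hcc : c' = ⟪e, w'⟫ := le_antisymm hB (hA w' ⟨x', hmem⟩)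
  refine ⟨w', ⟨x', hmem⟩, ?_, ?_, ?_, ?_⟩
  · rw [← hcc]
    exact ge_of_tendsto' hlc fun n => hc0 _
  · rw [← hcc]; exact hA
  · rintro v ⟨y, hv⟩
    rw [← hcc, 𝒟.angle hmem hv]
    have h1 : Tendsto (fun n => c (φ n) * ⟪x (φ n), y⟫ + K * s (φ n)) atTop (𝓝 (c' * ⟪x', y⟫ + 0)) :=
      (hlc.mul (hlx.inner tendsto_const_nhds)).add hKs
    rw [add_zero] at h1
    refine ge_of_tendsto h1 (Eventually.of_forall fun n => ?_)
    have h2 := hv3 (φ n) v y hv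
    rw [hcd] at h2
    have h3 : s (φ n) * ⟪e, v⟫ ≤ s (φ n) * (c (φ n) * ⟪x (φ n), y⟫ + K * s (φ n)) := by
      calc s (φ n) * ⟪e, v⟫ ≤ _ := h2
        _ = _ := by rw [hs]; ring
    exact le_of_mul_le_mul_left h3 (hspos _)
  · intro h0
    rw [← hcc] at h0
    refine ⟨fun n => φ n + N, fun n => z (φ n), (tendsto_add_atTop_nat N).comp hφ.tendsto_atTop,
      Eventually.of_forall fun n => hDz _, ?_⟩
    have h1 : Tendsto (fun n => (s (φ n))⁻¹ • (z (φ n) - s (φ n) • e)) atTop (𝓝 0) := by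
      apply squeeze_zero_norm (a := fun n => 2 * c (φ n))
      · intro n
        rw [norm_smul, norm_inv, Real.norm_eq_abs, abs_of_pos (hspos _)]
        have := hzz (φ n)
        rw [hcd] at this
        calc (s (φ n))⁻¹ * ‖z (φ n) - s (φ n) • e‖
            ≤ (s (φ n))⁻¹ * (2 * (c (φ n) * s (φ n))) := mul_le_mul_of_nonneg_left this (inv_nonneg.2 (hspos _).le)
          _ = 2 * c (φ n) := by field_simp [(hspos (φ n)).ne']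
      · have := hlc.const_mul 2
        rwa [h0, mul_zero] at this
    have h3 := h1.add (tendsto_const_nhds (x := e))
    rw [zero_add] at h3
    refine h3.congr fun n => ?_
    have hne := (hspos (φ n)).ne'
    rw [smul_sub, smul_smul, inv_mul_cancel₀ hne, one_smul, sub_add_cancel]

theorem coneCond : MPbl.ConeCond 𝒟.Lam := by
  intro e he
  obtain ⟨w, hw, h0, -, h2, -⟩ := 𝒟.key he (fun n => 1 / ((n : ℝ) + 1)) (fun n => by positivity)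
    tendsto_one_div_add_atTop_nhds_zero_nat
  exact ⟨w, hw, h0, h2⟩

theorem lam_unit : ∀ v ∈ 𝒟.Lam, ‖v‖ = 1 := fun _ ⟨_, hx⟩ => (𝒟.unit _ _ hx).1

theorem lam_nonempty : 𝒟.Lam.Nonempty := by
  obtain ⟨⟨w, x⟩, h⟩ := 𝒟.nonempty
  exact ⟨w, x, h⟩

theorem lam_compact : IsCompact 𝒟.Lam := by
  have h := 𝒟.compact.image continuous_fst
  have he : 𝒟.Lam = Prod.fst '' 𝒟.L := by
    ext w
    constructor
    · rintro ⟨x, hx⟩
      exact ⟨(w, x), hx, rfl⟩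
    · rintro ⟨⟨w', x⟩, hx, rfl⟩
      exact ⟨x, hx⟩
  rw [he]
  exact h

/-- (3): points of the cut locus near `q`. -/
theorem third {w1 e : E} {x1 : F} (h1 : (w1, x1) ∈ 𝒟.L) (h1' : -w1 ∈ 𝒟.Lam) (he : ‖e‖ = 1)
    (hwe : ⟪w1, e⟫ = 0) {s1 : ℝ} (hs1 : 0 < s1)
    (harc : ∀ s ∈ Set.Icc 0 s1, Real.cos s • w1 + Real.sin s • e ∈ 𝒟.Lam) :
    ∃ ρ K : ℝ, 0 < ρ ∧ 0 ≤ K ∧ ∀ s, 0 < s → s < ρ → ∀ a : E, ‖a‖ < ρ → 𝒟.D a 0 = Real.pi →
      -(Real.sin s * ⟪a, e⟫) ≤ K * (‖a‖ ^ 2 + s ^ 3) := by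
  obtain ⟨x2, h2⟩ := h1'
  obtain ⟨C', s2, hC', hs2, harc'⟩ := 𝒟.arc w1 x1 e h1 he hwe s1 hs1 (fun s hs hs' => harc s ⟨hs, hs'⟩)
  have hr0 := 𝒟.r0_pos
  have hC := 𝒟.C_nonneg
  obtain ⟨hw1, hx1⟩ := 𝒟.unit _ _ h1
  have h0E : ‖(0 : E)‖ < 𝒟.r0 := by simpa using hr0
  have h0F : ‖(0 : F)‖ < 𝒟.r0 := by simpa using hr0
  refine ⟨min (min s2 1) (min 𝒟.r0 (𝒟.r0 / (C' + 1))), 𝒟.C + 𝒟.C * C' ^ 2 + C',
    lt_min (lt_min hs2 one_pos) (lt_min hr0 (by positivity)), by positivity, fun s hs hsρ a ha hD => ?_⟩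
  obtain ⟨⟨hsa, hsb⟩, hsc, hsd⟩ : (s < s2 ∧ s < 1) ∧ s < 𝒟.r0 ∧ s < 𝒟.r0 / (C' + 1) := by
    simpa only [lt_min_iff] using hsρ
  have har : ‖a‖ < 𝒟.r0 := ha.trans_le ((min_le_right _ _).trans (min_le_left _ _))
  have has2 : ‖a‖ < s2 := ha.trans_le ((min_le_left _ _).trans (min_le_left _ _))
  obtain ⟨y, hy, hDy, hmain⟩ := harc' s hs hsa
  have hs2' : s ^ 2 ≤ s := by nlinarith
  have hs4 : s ^ 4 ≤ s ^ 3 := by
    have : 0 < s ^ 3 := by positivity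
    nlinarith
  have hyr : ‖y‖ < 𝒟.r0 := by
    have h3 : s * (C' + 1) < 𝒟.r0 := (lt_div_iff₀ (by linarith)).1 hsd
    have h4 : C' * s ^ 2 ≤ C' * s := mul_le_mul_of_nonneg_left hs2' hC'
    nlinarith
  have hy2 : ‖y‖ ^ 2 ≤ C' ^ 2 * s ^ 4 := by
    have := pow_le_pow_left₀ (norm_nonneg y) hy 2
    nlinarith
  have v1 := 𝒟.var _ _ h1 0 y h0E hyr
  have v2 := hmain a has2
  have v3 := 𝒟.var _ _ h2 a 0 har h0F
  rw [hDy, inner_zero_left, norm_zero] at v1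
  rw [hD, inner_sub_right, real_inner_smul_right, real_inner_smul_right] at v2
  rw [hD, inner_neg_right, inner_zero_left, norm_zero] at v3
  have hcos0 : 0 ≤ Real.cos s := Real.cos_nonneg_of_neg_pi_div_two_le_of_le (by linarith [Real.pi_pos]) (by linarith [Real.pi_gt_three])
  have hcos1 : Real.cos s ≤ 1 := Real.cos_le_one s
  have u1 : ⟪y, x1⟫ ≤ 𝒟.C * (C' ^ 2 * s ^ 4) := by
    have := mul_le_mul_of_nonneg_left hy2 hC
    nlinarith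
  have u3 : -(𝒟.C * ‖a‖ ^ 2) ≤ Real.cos s * ⟪a, w1⟫ := by
    have h3 : -(𝒟.C * ‖a‖ ^ 2) ≤ ⟪a, w1⟫ := by nlinarith
    have h4 : 0 ≤ 𝒟.C * ‖a‖ ^ 2 := by positivity
    nlinarith [mul_le_mul_of_nonneg_left h3 hcos0]
  have u6 : 𝒟.C * (C' ^ 2 * s ^ 4) ≤ 𝒟.C * (C' ^ 2 * s ^ 3) :=
    mul_le_mul_of_nonneg_left (mul_le_mul_of_nonneg_left hs4 (by positivity)) hC
  have u7 : 0 ≤ ‖a‖ ^ 2 := by positivity
  have u8 : 0 ≤ s ^ 3 := by positivity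
  have u9 : 0 ≤ (𝒟.C * C' ^ 2) * ‖a‖ ^ 2 := by positivity
  have u10 : 0 ≤ 𝒟.C * s ^ 3 := by positivity
  nlinarith

theorem neg_mem {k : E} (hk : k ∈ 𝒟.Lam) : -k ∈ 𝒟.Lam := by
  refine MPbl.neg_mem_of_arc 𝒟.coneCond 𝒟.lam_unit 𝒟.lam_compact ?_ hk
  rintro w1 η ⟨x1, h1⟩ h1' hη hwη s1 hs1 harc e he hen
  obtain ⟨ρ, K, hρ, hK, h3⟩ := 𝒟.third h1 h1' hη hwη hs1.1 harc
  set τ : ℕ → ℝ := fun n => 1 / ((n : ℝ) + 1) with hτ
  have hτ0 : ∀ n, 0 < τ n := fun n => by rw [hτ]; positivity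
  have hτ1 : ∀ n, τ n ≤ 1 := fun n => by
    rw [hτ]
    exact (div_le_one (by positivity)).2 (by have : (0 : ℝ) ≤ n := n.cast_nonneg
                                             linarith)
  have hτlim : Tendsto τ atTop (𝓝 0) := tendsto_one_div_add_atTop_nhds_zero_nat
  obtain ⟨w, hw, hw0, -, -, hlast⟩ := 𝒟.key hen (fun n => τ n ^ 3) (fun n => pow_pos (hτ0 n) 3)
    (by simpa using hτlim.pow 3)
  obtain ⟨φ, a, hφ, hDa, hlim⟩ := hlast (le_antisymm (he w hw) hw0)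
  by_contra hcon
  rw [not_le] at hcon
  -- everything along the subsequence
  have hτφ : Tendsto (fun n => τ (φ n)) atTop (𝓝 0) := hτlim.comp hφ
  have hinner : Tendsto (fun n => ⟪((τ (φ n)) ^ 3)⁻¹ • a n, η⟫) atTop (𝓝 ⟪e, η⟫) := hlim.inner tendsto_const_nhds
  have ev1 : ∀ᶠ n in atTop, ⟪((τ (φ n)) ^ 3)⁻¹ • a n, η⟫ < ⟪e, η⟫ / 2 :=
    hinner.eventually (eventually_lt_nhds (by linarith))
  have ev2 : ∀ᶠ n in atTop, ‖((τ (φ n)) ^ 3)⁻¹ • a n‖ < 2 :=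
    hlim.norm.eventually (eventually_lt_nhds (by rw [hen]; norm_num))
  have ev3 : ∀ᶠ n in atTop, τ (φ n) < ρ / 2 := hτφ.eventually (eventually_lt_nhds (by linarith))
  have ev4 : ∀ᶠ n in atTop, τ (φ n) * (K * 5) < -⟪e, η⟫ / 4 := by
    have : Tendsto (fun n => τ (φ n) * (K * 5)) atTop (𝓝 0) := by simpa using hτφ.mul_const (K * 5)
    exact this.eventually (eventually_lt_nhds (by linarith))
  obtain ⟨n, c1, c2, c3, c4, c5⟩ := (ev1.and (ev2.and (ev3.and (ev4.and hDa)))).exists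
  set r : ℝ := τ (φ n) with hr
  have hr0 : 0 < r := hτ0 _
  have hr1 : r ≤ 1 := hτ1 _
  set b : E := (r ^ 3)⁻¹ • a n with hb
  have hab : a n = r ^ 3 • b := by rw [hb, smul_smul, mul_inv_cancel₀ (by positivity), one_smul]
  have hr2 : r ^ 2 ≤ r := by nlinarith
  have hr3 : r ^ 3 ≤ r := by nlinarith [pow_pos hr0 2, pow_pos hr0 3]
  have hna : ‖a n‖ = r ^ 3 * ‖b‖ := by
    rw [hab, norm_smul, Real.norm_eq_abs, abs_of_pos (by positivity)]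
  have hna' : ‖a n‖ < ρ := by
    rw [hna]
    have : r ^ 3 * ‖b‖ ≤ r * 2 := mul_le_mul hr3 c2.le (norm_nonneg _) hr0.le
    linarith
  have h4 := h3 (r ^ 2) (by positivity) (by linarith) (a n) hna' c5
  rw [hab, real_inner_smul_left, ← hab, hna] at h4
  -- sin (r^2) ≥ r^2 / 2
  have hsin : r ^ 2 / 2 ≤ Real.sin (r ^ 2) := by
    have h5 := Real.sin_gt_sub_cube (x := r ^ 2) (by positivity)
    have h6 : (r ^ 2) ^ 3 ≤ r ^ 2 := by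
      calc (r ^ 2) ^ 3 = r ^ 2 * (r ^ 2) ^ 2 := by ring
        _ ≤ r ^ 2 * 1 := mul_le_mul_of_nonneg_left (pow_le_one₀ (by positivity) (by nlinarith)) (by positivity)
        _ = r ^ 2 := mul_one _
    have h6' : 0 < r ^ 2 := by positivity
    linarith
  have h7 : r ^ 2 / 2 * (r ^ 3 * (-⟪e, η⟫ / 2)) ≤ K * ((r ^ 3 * ‖b‖) ^ 2 + (r ^ 2) ^ 3) := by
    refine le_trans ?_ h4
    have h8 : -(Real.sin (r ^ 2) * (r ^ 3 * ⟪b, η⟫)) = Real.sin (r ^ 2) * (r ^ 3 * (-⟪b, η⟫)) := by ring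
    rw [h8]
    refine mul_le_mul hsin (mul_le_mul_of_nonneg_left (by linarith) (by positivity)) ?_ (le_trans (by positivity) hsin)
    exact mul_nonneg (by positivity) (by linarith)
  have h9 : K * ((r ^ 3 * ‖b‖) ^ 2 + (r ^ 2) ^ 3) ≤ K * (r ^ 6 * 5) := by
    apply mul_le_mul_of_nonneg_left _ hK
    have h10 : ‖b‖ ^ 2 ≤ 4 := by nlinarith [norm_nonneg b]
    have h11 : 0 < r ^ 6 := by positivity
    nlinarith
  have h12 : r ^ 5 * (-⟪e, η⟫ / 4) ≤ r ^ 5 * (r * (K * 5)) := by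
    calc r ^ 5 * (-⟪e, η⟫ / 4) = r ^ 2 / 2 * (r ^ 3 * (-⟪e, η⟫ / 2)) := by ring
      _ ≤ K * (r ^ 6 * 5) := h7.trans h9
      _ = r ^ 5 * (r * (K * 5)) := by ring
  have h13 := le_of_mul_le_mul_left h12 (by positivity)
  linarith

theorem exists_submodule : ∃ V : Submodule ℝ E, 𝒟.Lam = {v | v ∈ V ∧ ‖v‖ = 1} := by
  refine ⟨Submodule.span ℝ 𝒟.Lam, Set.Subset.antisymm (fun v hv => ⟨Submodule.subset_span hv, 𝒟.lam_unit v hv⟩) ?_⟩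
  rintro v ⟨hv, hv1⟩
  refine MPbl.mem_of_bipolar 𝒟.coneCond 𝒟.lam_unit hv1 fun x hx => ?_
  have h0 : ∀ w ∈ 𝒟.Lam, ⟪x, w⟫ = 0 := by
    intro w hw
    have h1 := hx w hw
    have h2 := hx (-w) (𝒟.neg_mem hw)
    rw [inner_neg_right] at h2
    linarith
  have h3 : ∀ u ∈ Submodule.span ℝ 𝒟.Lam, ⟪x, u⟫ = 0 := by
    intro u hu
    induction hu using Submodule.span_induction with
    | mem u hu => exact h0 u hu
    | zero => exact inner_zero_right x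
    | add u w _ _ hu hw => rw [inner_add_right, hu, hw, add_zero]
    | smul c u _ hu => rw [real_inner_smul_right, hu, mul_zero]
  exact (h3 v hv).le

/-- Geodesics close up. -/
theorem close {k : E} {x : F} (h : (k, x) ∈ 𝒟.L) : (-k, -x) ∈ 𝒟.L := by
  obtain ⟨y, hy⟩ := 𝒟.neg_mem ⟨x, h⟩
  have h1 := 𝒟.angle h hy
  rw [inner_neg_right, real_inner_self_eq_norm_sq, (𝒟.unit _ _ h).1] at h1
  have h2 : ⟪x, -y⟫ = 1 := by rw [inner_neg_right, ← h1]; norm_num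
  have h3 : x = -y := (inner_eq_one_iff_of_norm_eq_one (𝕜 := ℝ) (𝒟.unit _ _ h).2
    (by rw [norm_neg]; exact (𝒟.unit _ _ hy).2)).1 h2
  rw [h3, neg_neg]
  exact hy

end LDat

end Pool.Agent.Lib.MP_ccbbf6_gt.CL
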