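import Pool.Agent.Lib.MP_ccbbf6_gt.ML

/-!
# Level 3.5, block Q4 (distance formula): algebra of a symmetric partition (helper67)

`V` a Euclidean space, `P v` the subspace of the partition which contains `v`. `symm` is the conclusion of block Q2.
-/

set_option autoImplicit false

open Set Filter Topology Metric Real
open scoped RealInnerProductSpace

noncomputable section

namespace Pool.Agent.Lib.MP_ccbbf6_gt.CL

variable {V : Type*} [NormedAddCommGroup V] [InnerProductSpace ℝ V] [FiniteDimensional ℝ V]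

/-- a symmetric partition of a Euclidean space into subspaces -/
structure SymPart (P : V → Submodule ℝ V) : Prop where
  mem : ∀ v, v ∈ P v
  eq_of_mem : ∀ v w, w ∈ P v → w ≠ 0 → P w = P v
  symm : ∀ v w, ‖v‖ ^ 2 * ‖(P v).starProjection w‖ ^ 2 = ‖w‖ ^ 2 * ‖(P w).starProjection v‖ ^ 2

/-- the quartic form `N v w = |v|^2 |proj_{P v} w|^2` -/
def NN (P : V → Submodule ℝ V) (v w : V) : ℝ := ‖v‖ ^ 2 * ‖(P v).starProjection w‖ ^ 2

/-- the cosine term: `(a b)^2 + 2 a b <X, Y> + N X Y` (`a = cos (s/2)`, `X = sin (s/2) v`, ...) -/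
def FF (P : V → Submodule ℝ V) (a : ℝ) (X : V) (b : ℝ) (Y : V) : ℝ :=
  (a * b) ^ 2 + 2 * (a * b) * ⟪X, Y⟫ + NN P X Y

namespace SymPart

variable {P : V → Submodule ℝ V} (h : SymPart P)

include h

theorem NN_symm (v w : V) : NN P v w = NN P w v := h.symm v w

omit h in
theorem proj_self (W : Submodule ℝ V) (v : V) : ⟪W.starProjection v, v⟫ = ‖W.starProjection v‖ ^ 2 := by
  have h1 := W.inner_starProjection_left_eq_right v (W.starProjection v)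
  have h2 : W.starProjection (W.starProjection v) = W.starProjection v :=
    W.starProjection_eq_self_iff.2 (W.starProjection_apply_mem v)
  rw [h2, real_inner_self_eq_norm_sq] at h1
  rw [h1, real_inner_comm]

omit h in
theorem norm_proj_le (W : Submodule ℝ V) (v : V) : ‖W.starProjection v‖ ≤ ‖v‖ :=
  W.norm_starProjection_apply_le v

omit h in
theorem NN_nonneg (v w : V) : 0 ≤ NN P v w := by
  unfold NN
  positivity

omit h in
theorem NN_le (v w : V) : NN P v w ≤ ‖v‖ ^ 2 * ‖w‖ ^ 2 := by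
  unfold NN
  exact mul_le_mul_of_nonneg_left (pow_le_pow_left₀ (norm_nonneg _) (norm_proj_le _ _) 2) (by positivity)

theorem inner_sq_le (v w : V) : ⟪v, w⟫ ^ 2 ≤ NN P v w := by
  unfold NN
  have h1 : ⟪v, w⟫ = ⟪v, (P v).starProjection w⟫ := by
    rw [← (P v).inner_starProjection_left_eq_right, (P v).starProjection_eq_self_iff.2 (h.mem v)]
  rw [h1, ← mul_pow, ← sq_abs]
  exact pow_le_pow_left₀ (abs_nonneg _) (abs_real_inner_le_norm _ _) 2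

theorem FF_symm (a : ℝ) (X : V) (b : ℝ) (Y : V) : FF P a X b Y = FF P b Y a X := by
  unfold FF
  rw [h.NN_symm X Y, real_inner_comm]
  ring

theorem FF_nonneg (a : ℝ) (X : V) (b : ℝ) (Y : V) : 0 ≤ FF P a X b Y := by
  unfold FF
  have h1 := h.inner_sq_le X Y
  nlinarith [sq_nonneg (a * b + ⟪X, Y⟫)]

omit h in
theorem FF_le (a : ℝ) (X : V) (b : ℝ) (Y : V) : FF P a X b Y ≤ (|a * b| + ‖X‖ * ‖Y‖) ^ 2 := by
  unfold FF
  have h1 := NN_le (P := P) X Y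
  have h2 : (a * b) * ⟪X, Y⟫ ≤ |a * b| * (‖X‖ * ‖Y‖) := by
    refine (le_abs_self _).trans ?_
    rw [abs_mul]
    exact mul_le_mul_of_nonneg_left (abs_real_inner_le_norm _ _) (abs_nonneg _)
  have h3 := sq_abs (a * b)
  nlinarith

omit h in
theorem FF_le_one {a : ℝ} {X : V} {b : ℝ} {Y : V} (h1 : a ^ 2 + ‖X‖ ^ 2 = 1) (h2 : b ^ 2 + ‖Y‖ ^ 2 = 1) :
    FF P a X b Y ≤ 1 := by
  refine (FF_le a X b Y).trans ?_
  have h3 : |a * b| = |a| * |b| := abs_mul a b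
  have h4 : |a| ^ 2 = a ^ 2 := sq_abs a
  have h5 : |b| ^ 2 = b ^ 2 := sq_abs b
  rw [h3]
  nlinarith [sq_nonneg (|a| * ‖Y‖ - |b| * ‖X‖), sq_nonneg (|a| * |b| + ‖X‖ * ‖Y‖)]

/-- the gradient of `N(., Y)` has no component in `P X` orthogonal to `X` -/
theorem grad_P {X : V} (hX : X ≠ 0) (Y : V) {η : V} (hη : η ∈ P X) (hXη : ⟪X, η⟫ = 0) :
    ‖Y‖ ^ 2 * ⟪(P Y).starProjection X, η⟫ = 0 := by
  by_cases h0 : η = 0
  · rw [h0, inner_zero_right, mul_zero]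
  have hne : X + η ≠ 0 := by
    intro h1
    have h2 : η = -X := by rw [eq_neg_iff_add_eq_zero, add_comm]; exact h1
    rw [h2, inner_neg_right, neg_eq_zero, real_inner_self_eq_norm_sq] at hXη
    exact hX (norm_eq_zero.1 (pow_eq_zero_iff two_ne_zero |>.1 hXη))
  have e1 : P (X + η) = P X := h.eq_of_mem _ _ ((P X).add_mem (h.mem X) hη) hne
  have e2 : P η = P X := h.eq_of_mem _ _ hη h0
  have s0 := h.symm X Y
  have s1 := h.symm (X + η) Y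
  have s2 := h.symm η Y
  rw [e1, map_add, norm_add_sq_real, norm_add_sq_real, hXη] at s1
  rw [e2] at s2
  have h3 : ⟪(P Y).starProjection X, (P Y).starProjection η⟫ = ⟪(P Y).starProjection X, η⟫ := by
    rw [← (P Y).inner_starProjection_left_eq_right,
      (P Y).starProjection_eq_self_iff.2 ((P Y).starProjection_apply_mem X)]
  rw [h3] at s1
  linarith

/-- the value at a unit vector `v` -/
theorem NN_smul {v : V} (hv : ‖v‖ = 1) (σ : ℝ) (Y : V) :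
    NN P (σ • v) Y = σ ^ 2 * ‖(P v).starProjection Y‖ ^ 2 := by
  rw [h.NN_symm]
  unfold NN
  have h1 := h.symm v Y
  rw [hv] at h1
  rw [map_smul, norm_smul, mul_pow, Real.norm_eq_abs, sq_abs]
  rw [one_pow, one_mul] at h1
  rw [h1]
  ring

/-- the vector `Z` (half of the gradient of `N(., Y)` at `σ v`) -/
def ZZ (P : V → Submodule ℝ V) (σ : ℝ) (v Y : V) : V := (σ * ‖Y‖ ^ 2) • (P Y).starProjection v

/-- radial derivative of `FF` -/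
def Fs (P : V → Submodule ℝ V) (γ σ : ℝ) (v : V) (b : ℝ) (Y : V) : ℝ :=
  γ * σ * (‖(P v).starProjection Y‖ ^ 2 - b ^ 2) + (γ ^ 2 - σ ^ 2) * (b * ⟪v, Y⟫)

/-- the gradient of `FF` at the unit vector `v`, in the orthonormal polar frame -/
def GG (P : V → Submodule ℝ V) (γ σ : ℝ) (v : V) (b : ℝ) (Y : V) : V :=
  Fs P γ σ v b Y • v + b • ((P v).starProjection Y - ⟪v, Y⟫ • v) +
    ((γ * b) • (Y - (P v).starProjection Y) + (ZZ P σ v Y - (σ * ‖(P v).starProjection Y‖ ^ 2) • v))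

theorem ZZ_inner_self {v : V} (hv : ‖v‖ = 1) (σ : ℝ) (Y : V) :
    ⟪ZZ P σ v Y, v⟫ = σ * ‖(P v).starProjection Y‖ ^ 2 := by
  unfold ZZ
  have h1 := h.symm v Y
  rw [hv] at h1
  rw [inner_smul_left, proj_self]
  simp only [conj_trivial]
  rw [mul_assoc, ← h1]
  ring

theorem ZZ_inner_P {v : V} (hv : ‖v‖ = 1) (σ : ℝ) (Y : V) {η : V} (hη : η ∈ P v) (hvη : ⟪v, η⟫ = 0) :
    ⟪ZZ P σ v Y, η⟫ = 0 := by
  unfold ZZ
  have h0 : v ≠ 0 := by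
    rintro rfl
    rw [norm_zero] at hv
    exact zero_ne_one hv
  have h1 := h.grad_P h0 Y hη hvη
  rw [inner_smul_left]
  simp only [conj_trivial]
  rw [mul_assoc, h1, mul_zero]

theorem ZZ_norm {v : V} (hv : ‖v‖ = 1) (σ : ℝ) (Y : V) :
    ‖ZZ P σ v Y‖ ^ 2 = ‖Y‖ ^ 2 * (σ ^ 2 * ‖(P v).starProjection Y‖ ^ 2) := by
  unfold ZZ
  have h1 := h.symm v Y
  rw [hv] at h1
  rw [norm_smul, mul_pow, Real.norm_eq_abs, sq_abs]
  have h2 : ‖(P v).starProjection Y‖ ^ 2 = ‖Y‖ ^ 2 * ‖(P Y).starProjection v‖ ^ 2 := by linarith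
  rw [h2]
  ring

theorem ZZ_inner_Y (σ : ℝ) (v Y : V) : ⟪ZZ P σ v Y, Y⟫ = σ * ‖Y‖ ^ 2 * ⟪v, Y⟫ := by
  unfold ZZ
  rw [inner_smul_left, (P Y).inner_starProjection_left_eq_right,
    (P Y).starProjection_eq_self_iff.2 (h.mem Y)]
  simp

omit h in
theorem proj_sub_inner (W : Submodule ℝ V) (Y : V) {η : V} (hη : η ∈ W) :
    ⟪Y - W.starProjection Y, η⟫ = 0 := by
  have h1 : Y - W.starProjection Y ∈ Wᗮ := W.sub_starProjection_mem_orthogonal Y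
  exact (Submodule.mem_orthogonal' W _).1 h1 η hη

/-- **the eikonal identity** `|grad F|^2 = F (1 - F)` -/
theorem GG_norm {v : V} (hv : ‖v‖ = 1) {γ σ : ℝ} (hγσ : γ ^ 2 + σ ^ 2 = 1) {b : ℝ} {Y : V}
    (hb : b ^ 2 + ‖Y‖ ^ 2 = 1) :
    ‖GG P γ σ v b Y‖ ^ 2 = FF P γ (σ • v) b Y * (1 - FF P γ (σ • v) b Y) := by
  have hvP : v ∈ P v := h.mem v
  have hvv : ⟪v, v⟫ = (1 : ℝ) := by rw [real_inner_self_eq_norm_sq, hv]; norm_num
  obtain ⟨YV, hYV⟩ : ∃ YV, YV = (P v).starProjection Y := ⟨_, rfl⟩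
  obtain ⟨n, hn⟩ : ∃ n, n = ‖YV‖ ^ 2 := ⟨_, rfl⟩
  obtain ⟨c, hc⟩ : ∃ c : ℝ, c = ⟪v, Y⟫ := ⟨_, rfl⟩
  obtain ⟨Z, hZ⟩ : ∃ Z, Z = ZZ P σ v Y := ⟨_, rfl⟩
  obtain ⟨fs, hfs⟩ : ∃ fs, fs = Fs P γ σ v b Y := ⟨_, rfl⟩
  obtain ⟨R, hR⟩ : ∃ R, R = ‖Y‖ ^ 2 := ⟨_, rfl⟩
  have hYVmem : YV ∈ P v := by rw [hYV]; exact (P v).starProjection_apply_mem Y
  have i1 : ⟪v, YV⟫ = c := by
    rw [hYV, ← (P v).inner_starProjection_left_eq_right, (P v).starProjection_eq_self_iff.2 hvP, hc]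
  have i2 : ⟪YV, Y⟫ = n := by rw [hn, hYV, proj_self]
  have i3 : ⟪YV, YV⟫ = n := by rw [hn, real_inner_self_eq_norm_sq]
  have i4 : ⟪Y, Y⟫ = R := by rw [hR, real_inner_self_eq_norm_sq]
  have i5 : ⟪Z, v⟫ = σ * n := by rw [hZ, h.ZZ_inner_self hv, hn, hYV]
  have i6 : ⟪Z, Y⟫ = σ * R * c := by rw [hZ, h.ZZ_inner_Y, hc, hR]
  have i7 : ⟪Z, Z⟫ = R * (σ ^ 2 * n) := by
    rw [real_inner_self_eq_norm_sq, hZ, h.ZZ_norm hv, hn, hYV, hR]
  have i8 : ⟪Z, YV⟫ = c * (σ * n) := by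
    have h1 : YV - c • v ∈ P v := (P v).sub_mem hYVmem ((P v).smul_mem c hvP)
    have h2 : ⟪v, YV - c • v⟫ = 0 := by rw [inner_sub_right, inner_smul_right, i1, hvv]; ring
    have h3 := h.ZZ_inner_P hv σ Y h1 h2
    rw [← hZ, inner_sub_right, inner_smul_right, i5] at h3
    linarith
  have j1 : ⟪YV, v⟫ = c := by rw [real_inner_comm]; exact i1
  have j2 : ⟪Y, YV⟫ = n := by rw [real_inner_comm]; exact i2
  have j3 : ⟪v, Z⟫ = σ * n := by rw [real_inner_comm]; exact i5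
  have j4 : ⟪Y, Z⟫ = σ * R * c := by rw [real_inner_comm]; exact i6
  have j5 : ⟪YV, Z⟫ = c * (σ * n) := by rw [real_inner_comm]; exact i8
  have j6 : ⟪Y, v⟫ = c := by rw [real_inner_comm]; exact hc.symm
  have j7 : ⟪v, Y⟫ = c := hc.symm
  have hF : FF P γ (σ • v) b Y = γ ^ 2 * b ^ 2 + 2 * (γ * b) * (σ * c) + σ ^ 2 * n := by
    unfold FF
    rw [h.NN_smul hv, inner_smul_left, j7, ← hYV, ← hn]
    simp only [conj_trivial]
    ring
  have hfs' : fs = γ * σ * (n - b ^ 2) + (γ ^ 2 - σ ^ 2) * (b * c) := by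
    rw [hfs]
    unfold Fs
    rw [← hYV, ← hn, j7]
  rw [hF]
  unfold GG
  rw [← hfs, ← hYV, ← hZ, ← hn, j7, ← real_inner_self_eq_norm_sq]
  simp only [inner_add_left, inner_add_right, inner_sub_left, inner_sub_right, inner_smul_left, inner_smul_right,
    conj_trivial, i1, i2, i3, i4, i5, i6, i7, i8, j1, j2, j3, j4, j5, j6, j7, hvv]
  rw [hfs']
  have hR' : R = 1 - b ^ 2 := by rw [hR]; linarith
  rw [hR']
  linear_combination ((b ^ 2 + n) * (γ ^ 2 * b ^ 2 + 2 * (γ * b) * (σ * c) + σ ^ 2 * n) -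
    (b ^ 2 * n - b ^ 2 * c ^ 2) * (γ ^ 2 + σ ^ 2 + 1)) * hγσ

omit h in
/-- the case `F = 1` -/
theorem eq_of_FF_eq_one {a : ℝ} {X : V} {b : ℝ} {Y : V} (ha : 0 ≤ a) (hb : 0 ≤ b)
    (h1 : a ^ 2 + ‖X‖ ^ 2 = 1) (h2 : b ^ 2 + ‖Y‖ ^ 2 = 1) (hF : FF P a X b Y = 1) :
    a = b ∧ ((0 < a ∧ X = Y) ∨ (a = 0 ∧ ‖X‖ = 1 ∧ ‖Y‖ = 1 ∧ Y ∈ P X)) := by
  have h3 := FF_le (P := P) a X b Y
  rw [hF, abs_of_nonneg (mul_nonneg ha hb)] at h3
  have hX := norm_nonneg X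
  have hY := norm_nonneg Y
  have hm : 1 ≤ a * b + ‖X‖ * ‖Y‖ := by
    by_contra hc
    rw [not_le] at hc
    have : (a * b + ‖X‖ * ‖Y‖) ^ 2 < 1 := by
      have h0 : 0 ≤ a * b + ‖X‖ * ‖Y‖ := by positivity
      nlinarith
    linarith
  have h4 : (a - b) ^ 2 + (‖X‖ - ‖Y‖) ^ 2 ≤ 0 := by nlinarith
  have hab : a = b := by nlinarith [sq_nonneg (a - b), sq_nonneg (‖X‖ - ‖Y‖)]
  have hXY : ‖X‖ = ‖Y‖ := by nlinarith [sq_nonneg (a - b), sq_nonneg (‖X‖ - ‖Y‖)]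
  refine ⟨hab, ?_⟩
  subst hab
  have h5 : ⟪X, Y⟫ ≤ ‖X‖ * ‖Y‖ := real_inner_le_norm X Y
  have h6 := NN_le (P := P) X Y
  unfold FF at hF
  rw [← hXY] at h5 h6
  rcases eq_or_lt_of_le ha with h0 | h0
  · right
    rw [← h0] at h1 hF
    have hX1 : ‖X‖ = 1 := by nlinarith
    refine ⟨h0.symm, hX1, by rw [← hXY, hX1], ?_⟩
    have h7 : NN P X Y = 1 := by
      rw [← hF]
      ring
    unfold NN at h7
    rw [hX1] at h7
    have h8 : ‖(P X).starProjection Y‖ ^ 2 = 1 := by linarith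
    have h9 : ‖Y - (P X).starProjection Y‖ ^ 2 = 0 := by
      have e1 := proj_self (P X) Y
      rw [norm_sub_sq_real, real_inner_comm, e1, h8, ← hXY, hX1]
      norm_num
    have h10 : Y - (P X).starProjection Y = 0 := norm_eq_zero.1 (pow_eq_zero_iff two_ne_zero |>.1 h9)
    rw [sub_eq_zero.1 h10]
    exact (P X).starProjection_apply_mem Y
  · left
    refine ⟨h0, ?_⟩
    have h7 : 0 < a ^ 2 := by positivity
    have h8 : ⟪X, Y⟫ = ‖X‖ * ‖X‖ := by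
      refine le_antisymm h5 ?_
      by_contra hc
      rw [not_le] at hc
      have e1 : ‖X‖ ^ 2 = 1 - a ^ 2 := by linarith
      nlinarith [mul_pos h7 (sub_pos.2 hc)]
    have h9 : ‖X - Y‖ ^ 2 = 0 := by
      rw [norm_sub_sq_real, h8, ← hXY]
      ring
    exact sub_eq_zero.1 (norm_eq_zero.1 (pow_eq_zero_iff two_ne_zero |>.1 h9))

/-- the derivative of `FF` in polar coordinates -/
theorem dFF_eq {v : V} (hv : ‖v‖ = 1) (γ σ s b : ℝ) (Y η : V) :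
    2 * γ * b ^ 2 * (-(σ / 2) * ⟪v, η⟫) + 2 * b * ⟪σ • v, Y⟫ * (-(σ / 2) * ⟪v, η⟫) +
      2 * γ * b * ⟪(γ * ⟪v, η⟫ / 2) • v + (σ / s) • (η - ⟪v, η⟫ • v), Y⟫ +
      2 * ⟪ZZ P σ v Y, (γ * ⟪v, η⟫ / 2) • v + (σ / s) • (η - ⟪v, η⟫ • v)⟫ =
    ⟪⟪v, η⟫ • v + (2 * γ * σ / s) • ((P v).starProjection η - ⟪v, η⟫ • v) +
      (2 * σ / s) • (η - (P v).starProjection η), GG P γ σ v b Y⟫ := by
  have hvP : v ∈ P v := h.mem v
  have hvv : ⟪v, v⟫ = (1 : ℝ) := by rw [real_inner_self_eq_norm_sq, hv]; norm_num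
  obtain ⟨YV, hYV⟩ : ∃ YV, YV = (P v).starProjection Y := ⟨_, rfl⟩
  obtain ⟨ηV, hηV⟩ : ∃ ηV, ηV = (P v).starProjection η := ⟨_, rfl⟩
  obtain ⟨n, hn⟩ : ∃ n, n = ‖YV‖ ^ 2 := ⟨_, rfl⟩
  obtain ⟨c, hc⟩ : ∃ c : ℝ, c = ⟪v, Y⟫ := ⟨_, rfl⟩
  obtain ⟨α, hα⟩ : ∃ α : ℝ, α = ⟪v, η⟫ := ⟨_, rfl⟩
  obtain ⟨Z, hZ⟩ : ∃ Z, Z = ZZ P σ v Y := ⟨_, rfl⟩
  obtain ⟨fs, hfs⟩ : ∃ fs, fs = Fs P γ σ v b Y := ⟨_, rfl⟩
  obtain ⟨p, hp⟩ : ∃ p : ℝ, p = ⟪η, Y⟫ := ⟨_, rfl⟩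
  obtain ⟨q, hq⟩ : ∃ q : ℝ, q = ⟪ηV, Y⟫ := ⟨_, rfl⟩
  obtain ⟨z, hz⟩ : ∃ z : ℝ, z = ⟪Z, η⟫ := ⟨_, rfl⟩
  have hηVmem : ηV ∈ P v := by rw [hηV]; exact (P v).starProjection_apply_mem η
  have hYVmem : YV ∈ P v := by rw [hYV]; exact (P v).starProjection_apply_mem Y
  have hfix : ∀ w ∈ P v, (P v).starProjection w = w := fun w hw => (P v).starProjection_eq_self_iff.2 hw
  have i1 : ⟪v, YV⟫ = c := by
    rw [hYV, ← (P v).inner_starProjection_left_eq_right, hfix v hvP, hc]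
  have i2 : ⟪v, ηV⟫ = α := by
    rw [hηV, ← (P v).inner_starProjection_left_eq_right, hfix v hvP, hα]
  have i3 : ⟪ηV, YV⟫ = q := by
    rw [hYV, ← (P v).inner_starProjection_left_eq_right, hfix _ hηVmem, hq]
  have i4 : ⟪η, YV⟫ = q := by
    rw [hYV, ← (P v).inner_starProjection_left_eq_right, ← hηV, hq]
  have i5 : ⟪Z, v⟫ = σ * n := by rw [hZ, h.ZZ_inner_self hv, hn, hYV]
  have i6 : ⟪Z, ηV⟫ = α * (σ * n) := by
    have h1 : ηV - α • v ∈ P v := (P v).sub_mem hηVmem ((P v).smul_mem α hvP)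
    have h2 : ⟪v, ηV - α • v⟫ = 0 := by rw [inner_sub_right, inner_smul_right, i2, hvv]; ring
    have h3 := h.ZZ_inner_P hv σ Y h1 h2
    rw [← hZ, inner_sub_right, inner_smul_right, i5] at h3
    linarith
  have j0 : ⟪v, Y⟫ = c := hc.symm
  have j1 : ⟪v, η⟫ = α := hα.symm
  have j2 : ⟪η, v⟫ = α := by rw [real_inner_comm]; exact j1
  have j3 : ⟪ηV, v⟫ = α := by rw [real_inner_comm]; exact i2
  have j4 : ⟪η, Y⟫ = p := hp.symm
  have j5 : ⟪ηV, Y⟫ = q := hq.symm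
  have j6 : ⟪Z, η⟫ = z := hz.symm
  have j7 : ⟪η, Z⟫ = z := by rw [real_inner_comm]; exact j6
  have j8 : ⟪ηV, Z⟫ = α * (σ * n) := by rw [real_inner_comm]; exact i6
  have j9 : ⟪v, Z⟫ = σ * n := by rw [real_inner_comm]; exact i5
  have hfs' : fs = γ * σ * (n - b ^ 2) + (γ ^ 2 - σ ^ 2) * (b * c) := by
    rw [hfs]
    unfold Fs
    rw [← hYV, ← hn, j0]
  unfold GG
  rw [← hfs, ← hYV, ← hZ, ← hn, j0, j1, ← hηV]
  simp only [inner_add_left, inner_add_right, inner_sub_left, inner_sub_right, inner_smul_left, inner_smul_right,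
    conj_trivial, i1, i3, i4, i5, j0, j2, j3, j4, j5, j6, j7, j8, j9, hvv]
  rw [hfs']
  ring

end SymPart

end Pool.Agent.Lib.MP_ccbbf6_gt.CL
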