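import Pool.Agent.Lib.MP_ccbbf6_gt.CL.DfA

/-!
# Level 3.5, block Q4: calculus of the function `F` (helper67)
-/

set_option autoImplicit false

open Set Filter Topology Metric Real
open scoped RealInnerProductSpace

noncomputable section

namespace Pool.Agent.Lib.MP_ccbbf6_gt.CL

variable {V : Type*} [NormedAddCommGroup V] [InnerProductSpace ℝ V] [FiniteDimensional ℝ V]

/-- `cos (|x| / 2)` -/
def cc (x : V) : ℝ := Real.cos (‖x‖ / 2)

/-- `sin (|x| / 2) x / |x|` -/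
def SS (x : V) : V := (Real.sin (‖x‖ / 2) / ‖x‖) • x

/-- the function `F` on `V × V` -/
def FP (P : V → Submodule ℝ V) (x y : V) : ℝ := FF P (cc x) (SS x) (cc y) (SS y)

/-- the polar form of the metric: `|TT P x η|` is the length of `η` at `x` -/
def TT (P : V → Submodule ℝ V) (x η : V) : V :=
  ⟪‖x‖⁻¹ • x, η⟫ • (‖x‖⁻¹ • x) +
    (Real.sin ‖x‖ / ‖x‖) • ((P x).starProjection η - ⟪‖x‖⁻¹ • x, η⟫ • (‖x‖⁻¹ • x)) +
    (2 * Real.sin (‖x‖ / 2) / ‖x‖) • (η - (P x).starProjection η)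

theorem norm_SS (x : V) : ‖SS x‖ = |Real.sin (‖x‖ / 2)| := by
  unfold SS
  by_cases h : x = 0
  · rw [h]; simp
  · have h1 : ‖x‖ ≠ 0 := norm_ne_zero_iff.2 h
    rw [norm_smul, norm_div, norm_norm, div_mul_cancel₀ _ h1, Real.norm_eq_abs]

theorem cc_SS (x : V) : cc x ^ 2 + ‖SS x‖ ^ 2 = 1 := by
  rw [norm_SS, sq_abs]
  unfold cc
  exact Real.cos_sq_add_sin_sq _

theorem cc_nonneg {x : V} (hx : ‖x‖ ≤ π) : 0 ≤ cc x :=
  Real.cos_nonneg_of_mem_Icc ⟨by linarith [norm_nonneg x, Real.pi_pos], by linarith⟩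

theorem SS_eq (x : V) : SS x = Real.sin (‖x‖ / 2) • (‖x‖⁻¹ • x) := by
  unfold SS
  rw [smul_smul, div_eq_mul_inv]

theorem continuous_cc : Continuous (cc : V → ℝ) := by
  unfold cc
  fun_prop

theorem continuous_SS : Continuous (SS : V → V) := by
  rw [continuous_iff_continuousAt]
  intro x
  by_cases h : x = 0
  · subst h
    unfold ContinuousAt
    have h0 : SS (0 : V) = 0 := by unfold SS; simp
    rw [h0]
    rw [tendsto_zero_iff_norm_tendsto_zero]
    have h1 : (fun y : V => ‖SS y‖) = fun y : V => |Real.sin (‖y‖ / 2)| := funext norm_SS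
    rw [h1]
    have h2 : Continuous fun y : V => |Real.sin (‖y‖ / 2)| := by fun_prop
    have h3 := h2.tendsto (0 : V)
    simpa using h3
  · have h1 : ‖x‖ ≠ 0 := norm_ne_zero_iff.2 h
    unfold SS
    apply ContinuousAt.smul _ continuousAt_id
    exact ContinuousAt.div (by fun_prop) (by fun_prop) h1

theorem SS_ne_zero {x : V} (hx : x ≠ 0) (hx' : ‖x‖ ≤ π) : SS x ≠ 0 := by
  rw [← norm_ne_zero_iff, norm_SS]
  have h1 : 0 < ‖x‖ := norm_pos_iff.2 hx
  have h2 : 0 < Real.sin (‖x‖ / 2) :=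
    Real.sin_pos_of_pos_of_lt_pi (by linarith) (by linarith [Real.pi_pos])
  rw [abs_of_pos h2]
  exact h2.ne'

/-- `‖x‖` is differentiable off the origin -/
theorem hasFDerivAt_norm {x : V} (hx : x ≠ 0) :
    HasFDerivAt (fun x : V => ‖x‖) (innerSL ℝ (‖x‖⁻¹ • x)) x := by
  have h1 : ‖x‖ ≠ 0 := norm_ne_zero_iff.2 hx
  have h2 : HasFDerivAt (fun x : V => ‖x‖ ^ 2) (2 • (innerSL ℝ x)) x := (hasStrictFDerivAt_norm_sq x).hasFDerivAt
  have h3 := h2.sqrt (pow_ne_zero 2 h1)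
  have h4 : (fun x : V => √(‖x‖ ^ 2)) = fun x : V => ‖x‖ := by
    funext y
    exact Real.sqrt_sq (norm_nonneg y)
  rw [h4] at h3
  refine h3.congr_fderiv ?_
  ext η
  simp only [ContinuousLinearMap.smul_apply, innerSL_apply_apply, smul_eq_mul, nsmul_eq_mul, inner_smul_left,
    conj_trivial, Real.sqrt_sq (norm_nonneg x)]
  field_simp
  simp

namespace SymPart

variable {P : V → Submodule ℝ V} (h : SymPart P)

include h

theorem FP_symm (x y : V) : FP P x y = FP P y x := h.FF_symm _ _ _ _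

theorem FP_nonneg (x y : V) : 0 ≤ FP P x y := h.FF_nonneg _ _ _ _

omit h in
theorem FP_le_one (x y : V) : FP P x y ≤ 1 := FF_le_one (cc_SS x) (cc_SS y)

theorem P_unit {x : V} (hx : x ≠ 0) : P (‖x‖⁻¹ • x) = P x := by
  have h1 : ‖x‖ ≠ 0 := norm_ne_zero_iff.2 hx
  exact h.eq_of_mem _ _ ((P x).smul_mem _ (h.mem x)) (smul_ne_zero (inv_ne_zero h1) hx)

theorem continuous_NN : Continuous fun p : V × V => NN P p.1 p.2 := by
  let b := stdOrthonormalBasis ℝ V
  have hpol : ∀ (u w Y : V), ‖Y‖ ^ 2 * ⟪(P Y).starProjection u, w⟫ =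
      (NN P (u + w) Y - NN P (u - w) Y) / 4 := by
    intro u w Y
    rw [h.NN_symm, h.NN_symm (u - w)]
    unfold NN
    rw [map_add, map_sub, norm_add_sq_real, norm_sub_sq_real]
    have h1 : ⟪(P Y).starProjection u, (P Y).starProjection w⟫ = ⟪(P Y).starProjection u, w⟫ := by
      rw [← (P Y).inner_starProjection_left_eq_right,
        (P Y).starProjection_eq_self_iff.2 ((P Y).starProjection_apply_mem u)]
    rw [h1]
    ring
  have hcont : ∀ u : V, Continuous fun Y : V => NN P u Y := by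
    intro u
    unfold NN
    exact continuous_const.mul (((P u).starProjection.continuous.norm).pow 2)
  have key : (fun p : V × V => NN P p.1 p.2) = fun p : V × V =>
      ∑ i, ∑ j, ⟪b i, p.1⟫ * ⟪b j, p.1⟫ * ((NN P (b i + b j) p.2 - NN P (b i - b j) p.2) / 4) := by
    funext ⟨X, Y⟩
    show NN P X Y = _
    have h1 : NN P X Y = ‖Y‖ ^ 2 * ⟪(P Y).starProjection X, X⟫ := by
      rw [h.NN_symm, proj_self]
      rfl
    rw [h1]
    have gen : ∀ (T : V →L[ℝ] V) (c : Fin (Module.finrank ℝ V) → ℝ), ⟪T (∑ i, c i • b i), ∑ j, c j • b j⟫ =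
        ∑ i, ∑ j, c i * c j * ⟪T (b i), b j⟫ := by
      intro T c
      rw [map_sum, sum_inner]
      refine Finset.sum_congr rfl fun i _ => ?_
      rw [inner_sum]
      refine Finset.sum_congr rfl fun j _ => ?_
      rw [map_smul, inner_smul_left, inner_smul_right]
      simp only [conj_trivial]
      ring
    have h3 : ⟪(P Y).starProjection X, X⟫ = ∑ i, ∑ j, ⟪b i, X⟫ * ⟪b j, X⟫ * ⟪(P Y).starProjection (b i), b j⟫ := by
      have h4 := gen (P Y).starProjection fun i => ⟪b i, X⟫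
      rwa [b.sum_repr' X] at h4
    rw [h3, Finset.mul_sum]
    refine Finset.sum_congr rfl fun i _ => ?_
    rw [Finset.mul_sum]
    refine Finset.sum_congr rfl fun j _ => ?_
    rw [← hpol]
    ring
  rw [key]
  refine continuous_finsetSum _ fun i _ => continuous_finsetSum _ fun j _ => ?_
  refine ((continuous_const.inner continuous_fst).mul (continuous_const.inner continuous_fst)).mul ?_
  exact (((hcont _).comp continuous_snd).sub ((hcont _).comp continuous_snd)).div_const 4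

theorem continuous_FP : Continuous fun p : V × V => FP P p.1 p.2 := by
  unfold FP FF
  have h1 : Continuous fun p : V × V => cc p.1 * cc p.2 :=
    (continuous_cc.comp continuous_fst).mul (continuous_cc.comp continuous_snd)
  have h2 : Continuous fun p : V × V => SS p.1 := continuous_SS.comp continuous_fst
  have h3 : Continuous fun p : V × V => SS p.2 := continuous_SS.comp continuous_snd
  exact ((h1.pow 2).add ((continuous_const.mul h1).mul (h2.inner h3))).add (h.continuous_NN.comp (h2.prodMk h3))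

/-- **the derivative of `F` is the scalar product with the gradient, in the metric `|TT|`** -/
theorem hasFDerivAt_FP {x : V} (hx : x ≠ 0) (y : V) : ∃ L : V →L[ℝ] ℝ,
    HasFDerivAt (fun x => FP P x y) L x ∧ ∀ η, L η = ⟪TT P x η,
      GG P (cc x) (Real.sin (‖x‖ / 2)) (‖x‖⁻¹ • x) (cc y) (SS y)⟫ := by
  have h1 : ‖x‖ ≠ 0 := norm_ne_zero_iff.2 hx
  obtain ⟨b, hb⟩ : ∃ b, b = cc y := ⟨_, rfl⟩
  obtain ⟨Y, hY⟩ : ∃ Y, Y = SS y := ⟨_, rfl⟩
  obtain ⟨v, hv⟩ : ∃ v, v = ‖x‖⁻¹ • x := ⟨_, rfl⟩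
  have hv1 : ‖v‖ = 1 := by
    rw [hv, norm_smul, norm_inv, norm_norm, inv_mul_cancel₀ h1]
  have hn := hasFDerivAt_norm hx
  have hn2 : HasFDerivAt (fun x : V => ‖x‖ / 2) ((2 : ℝ)⁻¹ • innerSL ℝ v) x := by
    rw [hv]
    have := hn.const_mul (2 : ℝ)⁻¹
    refine this.congr_of_eventuallyEq (Filter.Eventually.of_forall fun z => ?_)
    show ‖z‖ / 2 = 2⁻¹ * ‖z‖
    ring
  have hc : HasFDerivAt (fun x : V => cc x) (-(Real.sin (‖x‖ / 2)) • ((2 : ℝ)⁻¹ • innerSL ℝ v)) x := hn2.cos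
  have hg : HasDerivAt (fun r : ℝ => Real.sin (r / 2) / r)
      ((Real.cos (‖x‖ / 2) * 2⁻¹ * ‖x‖ - Real.sin (‖x‖ / 2)) / ‖x‖ ^ 2) ‖x‖ := by
    have e1 : HasDerivAt (fun r : ℝ => r / 2) 2⁻¹ ‖x‖ := by
      have := (hasDerivAt_id ‖x‖).div_const 2
      simpa using this
    have e2 := (e1.sin).div (hasDerivAt_id ‖x‖) h1
    refine HasDerivAt.congr_deriv (f := fun r : ℝ => Real.sin (r / 2) / r) e2 ?_
    simp
  have hq : HasFDerivAt (fun x : V => Real.sin (‖x‖ / 2) / ‖x‖)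
      (((Real.cos (‖x‖ / 2) * 2⁻¹ * ‖x‖ - Real.sin (‖x‖ / 2)) / ‖x‖ ^ 2) • innerSL ℝ v) x := by
    rw [hv]
    exact hg.comp_hasFDerivAt x hn
  have hS : HasFDerivAt (fun x : V => SS x) ((Real.sin (‖x‖ / 2) / ‖x‖) • ContinuousLinearMap.id ℝ V +
      (((Real.cos (‖x‖ / 2) * 2⁻¹ * ‖x‖ - Real.sin (‖x‖ / 2)) / ‖x‖ ^ 2) • innerSL ℝ v).smulRight x) x :=
    hq.smul (hasFDerivAt_id x)
  obtain ⟨DS, hDS⟩ : ∃ DS : V →L[ℝ] V, DS = (Real.sin (‖x‖ / 2) / ‖x‖) • ContinuousLinearMap.id ℝ V +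
      (((Real.cos (‖x‖ / 2) * 2⁻¹ * ‖x‖ - Real.sin (‖x‖ / 2)) / ‖x‖ ^ 2) • innerSL ℝ v).smulRight x := ⟨_, rfl⟩
  rw [← hDS] at hS
  have hDS' : ∀ η, DS η = (cc x * ⟪v, η⟫ / 2) • v + (Real.sin (‖x‖ / 2) / ‖x‖) • (η - ⟪v, η⟫ • v) := by
    intro η
    have e1 : x = ‖x‖ • v := by rw [hv, smul_smul, mul_inv_cancel₀ h1, one_smul]
    have e2 : DS η = (Real.sin (‖x‖ / 2) / ‖x‖) • η +
        (((Real.cos (‖x‖ / 2) * 2⁻¹ * ‖x‖ - Real.sin (‖x‖ / 2)) / ‖x‖ ^ 2) * ⟪v, η⟫) • x := by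
      rw [hDS]
      rfl
    rw [e2]
    conv_lhs => rw [e1]
    rw [norm_smul, norm_norm, hv1, mul_one]
    unfold cc
    rw [smul_smul, smul_sub, smul_smul]
    have e3 : Real.cos (‖x‖ / 2) * ⟪v, η⟫ / 2 - Real.sin (‖x‖ / 2) / ‖x‖ * ⟪v, η⟫ =
        (Real.cos (‖x‖ / 2) * 2⁻¹ * ‖x‖ - Real.sin (‖x‖ / 2)) / ‖x‖ ^ 2 * ⟪v, η⟫ * ‖x‖ := by
      field_simp
    rw [← e3, sub_smul]
    abel
  have hSY : HasFDerivAt (fun x : V => ⟪SS x, Y⟫) ((innerSL ℝ Y).comp DS) x := by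
    have := (innerSL ℝ Y).hasFDerivAt.comp x hS
    refine this.congr_of_eventuallyEq (Filter.Eventually.of_forall fun z => ?_)
    show ⟪SS z, Y⟫ = ⟪Y, SS z⟫
    exact real_inner_comm _ _
  have hN : HasFDerivAt (fun x : V => NN P (SS x) Y)
      (‖Y‖ ^ 2 • ((2 : ℝ) • (innerSL ℝ ((P Y).starProjection (SS x))).comp ((P Y).starProjection.comp DS))) x := by
    have e1 := ((P Y).starProjection.hasFDerivAt.comp x hS).norm_sq
    have e2 := e1.const_mul (‖Y‖ ^ 2)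
    refine (e2.congr_of_eventuallyEq (Filter.Eventually.of_forall fun z => ?_)).congr_fderiv ?_
    · show NN P (SS z) Y = ‖Y‖ ^ 2 * ‖(P Y).starProjection (SS z)‖ ^ 2
      rw [h.NN_symm]
      rfl
    · ext η
      simp
  have hcb := hc.mul_const b
  have hF := ((hcb.pow 2).add ((hcb.const_mul 2).mul hSY)).add hN
  refine ⟨_, hF.congr_of_eventuallyEq (Filter.Eventually.of_forall fun z => ?_), fun η => ?_⟩
  · show FP P z y = _
    unfold FP FF
    rw [← hb, ← hY]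
    rfl
  · have key := h.dFF_eq hv1 (cc x) (Real.sin (‖x‖ / 2)) ‖x‖ b Y η
    have e0 : SS x = Real.sin (‖x‖ / 2) • v := by rw [SS_eq, hv]
    have e1 : TT P x η = ⟪v, η⟫ • v + (2 * cc x * Real.sin (‖x‖ / 2) / ‖x‖) • ((P v).starProjection η - ⟪v, η⟫ • v) +
        (2 * Real.sin (‖x‖ / 2) / ‖x‖) • (η - (P v).starProjection η) := by
      unfold TT
      have e2 : Real.sin ‖x‖ = 2 * cc x * Real.sin (‖x‖ / 2) := by
        have := Real.sin_two_mul (‖x‖ / 2)
        rw [mul_div_cancel₀ _ (two_ne_zero)] at this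
        rw [this]
        unfold cc
        ring
      have e3 : P v = P x := by rw [hv]; exact h.P_unit hx
      rw [e3, e2, ← hv]
    rw [← hv, ← hb, ← hY, e1, ← key, ← e0, ← hDS' η]
    have e4 : ⟪ZZ P (Real.sin (‖x‖ / 2)) v Y, DS η⟫ = ‖Y‖ ^ 2 * ⟪(P Y).starProjection (SS x), (P Y).starProjection (DS η)⟫ := by
      unfold ZZ
      rw [e0, map_smul, inner_smul_left, inner_smul_left, ← (P Y).inner_starProjection_left_eq_right,
        (P Y).starProjection_eq_self_iff.2 ((P Y).starProjection_apply_mem v)]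
      simp only [conj_trivial]
      ring
    rw [e4]
    have e5 : ⟪Y, DS η⟫ = ⟪DS η, Y⟫ := real_inner_comm _ _
    simp [e5]
    unfold cc
    ring

end SymPart

end Pool.Agent.Lib.MP_ccbbf6_gt.CL
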