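import Pool.Agent.Lib.MP_ccbbf6_gt.CL.DfB

/-!
# Level 3.5, block Q4, step A: `d ≤ D` by a maximum principle (helper67)
-/

set_option autoImplicit false

open Set Filter Topology Metric Real
open scoped RealInnerProductSpace

noncomputable section

namespace Pool.Agent.Lib.MP_ccbbf6_gt.CL

open SymPart (GG ZZ Fs)

variable {V : Type*} [NormedAddCommGroup V] [InnerProductSpace ℝ V] [FiniteDimensional ℝ V]
  {M : Type*} [MetricSpace M]

/-- `e` is the exponential map at `e 0`, with the polar form `TT P` of the metric -/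
structure ExpPol (P : V → Submodule ℝ V) (e : V → M) : Prop where
  cont : Continuous e
  surj : ∀ q, ∃ x, ‖x‖ ≤ π ∧ e x = q
  dist0 : ∀ x, ‖x‖ ≤ π → dist (e 0) (e x) = ‖x‖
  ray : ∀ x, ‖x‖ = 1 → ∀ s t : ℝ, |s - t| ≤ π → dist (e (s • x)) (e (t • x)) = |s - t|
  inj : ∀ x y, ‖x‖ < π → ‖y‖ < π → e x = e y → x = y
  cut : ∀ x y, ‖x‖ = π → ‖y‖ = π → (e x = e y ↔ y ∈ P x)
  metric : ∀ x, x ≠ 0 → ‖x‖ ≤ π → ∀ ε : ℝ, 0 < ε → ∀ᶠ η in 𝓝 (0 : V),
    |dist (e x) (e (x + η)) - ‖TT P x η‖| ≤ ε * ‖η‖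

/-- the distance given by `F` -/
def DD (P : V → Submodule ℝ V) (x y : V) : ℝ := 2 * Real.arccos (√(FP P x y))

section algebra

variable {P : V → Submodule ℝ V}

theorem TT_add (x η ζ : V) : TT P x (η + ζ) = TT P x η + TT P x ζ := by
  unfold TT
  rw [map_add, inner_add_right]
  module

theorem TT_smul (x : V) (c : ℝ) (η : V) : TT P x (c • η) = c • TT P x η := by
  unfold TT
  rw [map_smul, inner_smul_right]
  module

/-- `TT P x` as a continuous linear map -/
def TL (P : V → Submodule ℝ V) (x : V) : V →L[ℝ] V :=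
  LinearMap.toContinuousLinearMap
    { toFun := TT P x
      map_add' := TT_add x
      map_smul' := TT_smul x }

theorem TL_apply (x η : V) : TL P x η = TT P x η := rfl

variable (h : SymPart P)

include h

theorem unit_mem {x : V} (hx : x ≠ 0) : ‖x‖⁻¹ • x ∈ P x := (P x).smul_mem _ (h.mem x)

theorem TT_surj {x : V} (hx : x ≠ 0) (hx' : ‖x‖ < π) (ξ : V) : ∃ η, TT P x η = ξ := by
  have h1 : 0 < ‖x‖ := norm_pos_iff.2 hx
  have hs1 : 0 < Real.sin ‖x‖ := Real.sin_pos_of_pos_of_lt_pi h1 hx'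
  have hs2 : 0 < Real.sin (‖x‖ / 2) := Real.sin_pos_of_pos_of_lt_pi (by linarith) (by linarith [Real.pi_pos])
  obtain ⟨v, hv⟩ : ∃ v, v = ‖x‖⁻¹ • x := ⟨_, rfl⟩
  have hv1 : ‖v‖ = 1 := by rw [hv, norm_smul, norm_inv, norm_norm, inv_mul_cancel₀ h1.ne']
  have hvv : ⟪v, v⟫ = (1 : ℝ) := by rw [real_inner_self_eq_norm_sq, hv1]; norm_num
  have hvP : v ∈ P x := by rw [hv]; exact unit_mem h hx
  have hfix : ∀ w ∈ P x, (P x).starProjection w = w := fun w hw => (P x).starProjection_eq_self_iff.2 hw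
  have hmem := (P x).starProjection_apply_mem ξ
  obtain ⟨α, hα⟩ : ∃ α : ℝ, α = ⟪v, ξ⟫ := ⟨_, rfl⟩
  have i1 : ⟪v, (P x).starProjection ξ⟫ = α := by
    rw [← (P x).inner_starProjection_left_eq_right, hfix v hvP, hα]
  refine ⟨α • v + (‖x‖ / Real.sin ‖x‖) • ((P x).starProjection ξ - α • v) +
    (‖x‖ / (2 * Real.sin (‖x‖ / 2))) • (ξ - (P x).starProjection ξ), ?_⟩
  unfold TT
  rw [← hv]
  have e1 : (P x).starProjection (ξ - (P x).starProjection ξ) = 0 := by
    rw [map_sub, hfix _ hmem, sub_self]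
  have e2 : ⟪v, ξ - (P x).starProjection ξ⟫ = 0 := by rw [inner_sub_right, i1, ← hα, sub_self]
  have e3 : ⟪v, α • v + (‖x‖ / Real.sin ‖x‖) • ((P x).starProjection ξ - α • v) +
    (‖x‖ / (2 * Real.sin (‖x‖ / 2))) • (ξ - (P x).starProjection ξ)⟫ = α := by
    rw [inner_add_right, inner_add_right, inner_smul_right, inner_smul_right, inner_smul_right, e2,
      inner_sub_right, inner_smul_right, i1, hvv]
    ring
  have e4 : (P x).starProjection (α • v + (‖x‖ / Real.sin ‖x‖) • ((P x).starProjection ξ - α • v) +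
    (‖x‖ / (2 * Real.sin (‖x‖ / 2))) • (ξ - (P x).starProjection ξ)) =
      α • v + (‖x‖ / Real.sin ‖x‖) • ((P x).starProjection ξ - α • v) := by
    rw [map_add, map_smul _ (‖x‖ / (2 * Real.sin (‖x‖ / 2))), e1, smul_zero, add_zero]
    exact hfix _ ((P x).add_mem ((P x).smul_mem _ hvP) ((P x).smul_mem _ ((P x).sub_mem hmem ((P x).smul_mem _ hvP))))
  rw [e3, e4, add_sub_cancel_left, add_sub_cancel_left, smul_smul, smul_smul]
  have e5 : Real.sin ‖x‖ / ‖x‖ * (‖x‖ / Real.sin ‖x‖) = 1 := by field_simp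
  have e6 : 2 * Real.sin (‖x‖ / 2) / ‖x‖ * (‖x‖ / (2 * Real.sin (‖x‖ / 2))) = 1 := by field_simp
  rw [e5, e6]
  module

end algebra

section stepA

variable {P : V → Submodule ℝ V} {e : V → M} (h : SymPart P) (hE : ExpPol P e)

omit [FiniteDimensional ℝ V] in
theorem DD_symm' (a b : ℝ) (hab : a = b) : 2 * Real.arccos (√a) = 2 * Real.arccos (√b) := by rw [hab]

include h in
theorem DD_symm (x y : V) : DD P x y = DD P y x := by
  unfold DD
  rw [h.FP_symm]

include h in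
theorem continuous_DD : Continuous fun p : V × V => DD P p.1 p.2 := by
  unfold DD
  exact continuous_const.mul (Real.continuous_arccos.comp (Real.continuous_sqrt.comp h.continuous_FP))

include h in
theorem FP_zero_left (y : V) : FP P 0 y = cc y ^ 2 := by
  unfold FP FF
  have h1 : SS (0 : V) = 0 := by unfold SS; simp
  have h2 : cc (0 : V) = 1 := by unfold cc; simp
  rw [h1, h2]
  unfold NN
  simp

include h in
theorem DD_zero_left {y : V} (hy : ‖y‖ ≤ π) : DD P 0 y = ‖y‖ := by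
  unfold DD
  rw [FP_zero_left h, Real.sqrt_sq (cc_nonneg hy)]
  unfold cc
  rw [Real.arccos_cos (by positivity) (by linarith [Real.pi_pos])]
  ring

include h in
theorem DD_le_pi (x y : V) : DD P x y ≤ π := by
  unfold DD
  have := Real.arccos_le_pi_div_two.2 (Real.sqrt_nonneg (FP P x y))
  linarith

include h in
/-- the derivative of `D` along a curve with `F' = R^2`, `R = sqrt (F (1 - F))`, is `-R` -/
theorem deriv_DD {f : ℝ → ℝ} {F R : ℝ} (hf0 : f 0 = F) (hF0 : 0 < F) (hF1 : F < 1)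
    (hR : R = √(F * (1 - F))) (hf : HasDerivAt f (R ^ 2) 0) :
    HasDerivAt (fun τ => 2 * Real.arccos (√(f τ))) (-R) 0 := by
  have hF2 : 0 < 1 - F := by linarith
  have hR0 : 0 < R := by rw [hR]; exact Real.sqrt_pos.2 (mul_pos hF0 hF2)
  have h1 := hf.sqrt (by rw [hf0]; exact hF0.ne')
  have hs0 : 0 < √F := Real.sqrt_pos.2 hF0
  have hs1 : √F < 1 := by
    rw [Real.sqrt_lt' one_pos]
    linarith
  have h2 : HasDerivAt Real.arccos (-(1 / √(1 - √(f 0) ^ 2))) (√(f 0)) := by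
    rw [hf0]
    exact Real.hasDerivAt_arccos (by linarith) hs1.ne
  have h3 := (h2.comp (0 : ℝ) h1).const_mul 2
  refine h3.congr_deriv ?_
  rw [hf0, Real.sq_sqrt hF0.le]
  have hs2 : 0 < √(1 - F) := Real.sqrt_pos.2 hF2
  have hRR : R = √F * √(1 - F) := by rw [hR, Real.sqrt_mul hF0.le]
  rw [hRR]
  field_simp

include h hE in
/-- **the move**: at a maximum of `λ d - D` there is no curve in the direction of the gradient -/
theorem no_move {l : ℝ} (hl0 : 0 ≤ l) (hl1 : l < 1) {x y : V} (hx : x ≠ 0) (hx' : ‖x‖ ≤ π)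
    (hF0 : 0 < FP P x y) (hF1 : FP P x y < 1) {η : V}
    (hη : TT P x η = GG P (cc x) (Real.sin (‖x‖ / 2)) (‖x‖⁻¹ • x) (cc y) (SS y)) {c : ℝ → V} (hc0 : c 0 = x)
    (hc : HasDerivAt c η 0)
    (hmax : ∀ᶠ τ in 𝓝[>] (0 : ℝ), l * dist (e (c τ)) (e y) - DD P (c τ) y ≤ l * dist (e x) (e y) - DD P x y) :
    False := by
  obtain ⟨F, hF⟩ : ∃ F, F = FP P x y := ⟨_, rfl⟩
  obtain ⟨R, hR⟩ : ∃ R, R = √(F * (1 - F)) := ⟨_, rfl⟩
  rw [← hF] at hF0 hF1
  have hFF : 0 < F * (1 - F) := mul_pos hF0 (by linarith)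
  have hR0 : 0 < R := by rw [hR]; exact Real.sqrt_pos.2 hFF
  have hn : ‖x‖ ≠ 0 := norm_ne_zero_iff.2 hx
  have hv1 : ‖‖x‖⁻¹ • x‖ = 1 := by rw [norm_smul, norm_inv, norm_norm, inv_mul_cancel₀ hn]
  have hG : ‖TT P x η‖ ^ 2 = F * (1 - F) := by
    have hcs : cc x ^ 2 + Real.sin (‖x‖ / 2) ^ 2 = 1 := Real.cos_sq_add_sin_sq _
    rw [hη, h.GG_norm hv1 hcs (cc_SS y), ← SS_eq, hF]
    rfl
  have hG' : ‖TT P x η‖ = R := by
    rw [hR, ← hG, Real.sqrt_sq (norm_nonneg _)]
  obtain ⟨L, hL, hL'⟩ := h.hasFDerivAt_FP hx y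
  have hf : HasDerivAt (fun τ => FP P (c τ) y) (R ^ 2) 0 := by
    have e1 : HasFDerivAt (fun x => FP P x y) L (c 0) := by rw [hc0]; exact hL
    have e2 := e1.comp_hasDerivAt (0 : ℝ) hc
    refine e2.congr_deriv ?_
    rw [hL', ← hη, real_inner_self_eq_norm_sq, hG']
  have hD := deriv_DD h (f := fun τ => FP P (c τ) y) (F := F) (R := R) (by show FP P (c 0) y = F; rw [hc0, hF])
    hF0 hF1 hR hf
  have hslope : Tendsto (fun τ : ℝ => τ⁻¹ * (DD P x y - DD P (c τ) y)) (𝓝[>] 0) (𝓝 R) := by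
    have e1 := hD.tendsto_slope_zero_right
    have e2 := e1.neg
    rw [neg_neg] at e2
    refine e2.congr fun τ => ?_
    show -(τ⁻¹ • (2 * Real.arccos (√(FP P (c (0 + τ)) y)) - 2 * Real.arccos (√(FP P (c 0) y)))) = _
    rw [zero_add, hc0, smul_eq_mul]
    unfold DD
    ring
  -- the distance along the curve
  have hdist : ∀ ε : ℝ, 0 < ε → ∀ᶠ τ in 𝓝[>] (0 : ℝ), dist (e x) (e (c τ)) ≤ (R + ε) * τ := by
    intro ε hε
    obtain ⟨K, hK⟩ : ∃ K, K = ‖η‖ + 1 := ⟨_, rfl⟩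
    have hK0 : 0 < K := by rw [hK]; positivity
    have hslopec : Tendsto (fun τ : ℝ => τ⁻¹ • (c τ - x)) (𝓝[>] 0) (𝓝 η) := by
      have e1 := hc.tendsto_slope_zero_right
      refine e1.congr fun τ => ?_
      rw [zero_add, hc0]
    have hT : Tendsto (fun τ : ℝ => ‖TT P x (τ⁻¹ • (c τ - x))‖) (𝓝[>] 0) (𝓝 R) := by
      rw [← hG']
      exact (((TL P x).continuous.tendsto η).comp hslopec).norm
    have hN : Tendsto (fun τ : ℝ => ‖τ⁻¹ • (c τ - x)‖) (𝓝[>] 0) (𝓝 ‖η‖) := hslopec.norm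
    have hcc : Tendsto (fun τ : ℝ => c τ - x) (𝓝[>] 0) (𝓝 0) := by
      have e1 : Tendsto c (𝓝 0) (𝓝 x) := by
        have := hc.continuousAt.tendsto
        rwa [hc0] at this
      have e2 : Tendsto (fun τ : ℝ => c τ - x) (𝓝[>] 0) (𝓝 (x - x)) := (e1.mono_left nhdsWithin_le_nhds).sub_const x
      rwa [sub_self] at e2
    have hm := hcc.eventually (hE.metric x hx hx' (ε / (2 * K)) (by positivity))
    have ha : ∀ᶠ τ in 𝓝[>] (0 : ℝ), ‖TT P x (τ⁻¹ • (c τ - x))‖ < R + ε / 2 :=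
      hT.eventually (gt_mem_nhds (by linarith))
    have hb : ∀ᶠ τ in 𝓝[>] (0 : ℝ), ‖τ⁻¹ • (c τ - x)‖ < K :=
      hN.eventually (gt_mem_nhds (by rw [hK]; linarith))
    filter_upwards [hm, ha, hb, self_mem_nhdsWithin] with τ h1 h2 h3 h4
    have hτ : 0 < τ := h4
    rw [add_sub_cancel] at h1
    have e1 : c τ - x = τ • (τ⁻¹ • (c τ - x)) := by rw [smul_smul, mul_inv_cancel₀ hτ.ne', one_smul]
    obtain ⟨u, hu⟩ : ∃ u, u = τ⁻¹ • (c τ - x) := ⟨_, rfl⟩
    rw [← hu] at h2 h3 e1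
    rw [e1, TT_smul, norm_smul, norm_smul, Real.norm_of_nonneg hτ.le] at h1
    have h5 := (abs_le.1 h1).2
    have h6 : ε / (2 * K) * (τ * ‖u‖) ≤ ε / (2 * K) * (τ * K) := by gcongr
    have h7 : ε / (2 * K) * (τ * K) = ε / 2 * τ := by field_simp
    have h8 : τ * ‖TT P x u‖ ≤ τ * (R + ε / 2) := by gcongr
    nlinarith
  have hfin : ∀ ε : ℝ, 0 < ε → R ≤ l * (R + ε) := by
    intro ε hε
    refine le_of_tendsto hslope ?_
    filter_upwards [hmax, hdist ε hε, self_mem_nhdsWithin] with τ h1 h2 h4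
    have hτ : 0 < τ := h4
    rw [inv_mul_le_iff₀ hτ]
    have h5 : dist (e x) (e y) ≤ dist (e x) (e (c τ)) + dist (e (c τ)) (e y) := dist_triangle _ _ _
    have h6 : l * dist (e x) (e y) ≤ l * (dist (e x) (e (c τ)) + dist (e (c τ)) (e y)) := by gcongr
    have h7 : l * dist (e x) (e (c τ)) ≤ l * ((R + ε) * τ) := by gcongr
    nlinarith
  have h1 := hfin ((1 - l) * R / 2) (by nlinarith)
  have h2 := mul_pos (mul_pos (show 0 < 1 - l by linarith) (show 0 < 2 - l by linarith)) hR0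
  nlinarith

include h hE in
/-- **Step A**: `d ≤ D` -/
theorem stepA (hdiam : ∀ p q : M, dist p q ≤ π) {x y : V} (hx : ‖x‖ ≤ π) (hy : ‖y‖ ≤ π) :
    dist (e x) (e y) ≤ DD P x y := by
  by_contra hcon
  rw [not_le] at hcon
  have hpi := Real.pi_pos
  have hd0 : 0 < dist (e x) (e y) := by
    refine lt_of_le_of_lt ?_ hcon
    unfold DD
    have := Real.arccos_nonneg (√(FP P x y))
    linarith
  obtain ⟨l, hl0, hl1, hl⟩ : ∃ l : ℝ, 0 < l ∧ l < 1 ∧ DD P x y < l * dist (e x) (e y) := by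
    have hDn : 0 ≤ DD P x y := by
      unfold DD
      have := Real.arccos_nonneg (√(FP P x y))
      linarith
    refine ⟨(DD P x y / dist (e x) (e y) + 1) / 2, by positivity, ?_, ?_⟩
    · have : DD P x y / dist (e x) (e y) < 1 := (div_lt_one hd0).2 hcon
      linarith
    · have : (DD P x y / dist (e x) (e y) + 1) / 2 * dist (e x) (e y) = (DD P x y + dist (e x) (e y)) / 2 := by
        field_simp
      rw [this]
      linarith
  have hK : IsCompact ((closedBall (0 : V) π) ×ˢ (closedBall (0 : V) π)) :=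
    (isCompact_closedBall 0 π).prod (isCompact_closedBall 0 π)
  have hcont : Continuous fun p : V × V => l * dist (e p.1) (e p.2) - DD P p.1 p.2 :=
    (continuous_const.mul ((hE.cont.comp continuous_fst).dist (hE.cont.comp continuous_snd))).sub (continuous_DD h)
  obtain ⟨⟨a, b⟩, ⟨ha, hb⟩, hmax⟩ := hK.exists_isMaxOn ⟨(x, y), mem_closedBall_zero_iff.2 hx, mem_closedBall_zero_iff.2 hy⟩
    hcont.continuousOn
  rw [mem_closedBall_zero_iff] at ha hb
  have hmax' : ∀ a' b' : V, ‖a'‖ ≤ π → ‖b'‖ ≤ π →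
      l * dist (e a') (e b') - DD P a' b' ≤ l * dist (e a) (e b) - DD P a b := fun a' b' h1 h2 =>
    hmax (show (a', b') ∈ (closedBall (0 : V) π) ×ˢ (closedBall (0 : V) π) from
      ⟨mem_closedBall_zero_iff.2 h1, mem_closedBall_zero_iff.2 h2⟩)
  have hpos : 0 < l * dist (e a) (e b) - DD P a b := lt_of_lt_of_le (by linarith) (hmax' x y hx hy)
  have hdab := hdiam (e a) (e b)
  have hl' : l * dist (e a) (e b) ≤ dist (e a) (e b) := by
    have := dist_nonneg (x := e a) (y := e b)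
    nlinarith
  -- trivial cases
  have hF0 : 0 < FP P a b := by
    rcases eq_or_lt_of_le (h.FP_nonneg a b) with h0 | h0
    · exfalso
      unfold DD at hpos
      rw [← h0, Real.sqrt_zero, Real.arccos_zero] at hpos
      linarith
    · exact h0
  have hF1 : FP P a b < 1 := by
    rcases eq_or_lt_of_le (SymPart.FP_le_one (P := P) a b) with h0 | h0
    · exfalso
      have heq : e a = e b := by
        obtain ⟨h1, h2⟩ := SymPart.eq_of_FF_eq_one (cc_nonneg ha) (cc_nonneg hb) (cc_SS a) (cc_SS b) h0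
        have hnorm : ‖a‖ = ‖b‖ := by
          have e1 : ‖a‖ / 2 = ‖b‖ / 2 :=
            Real.injOn_cos ⟨by positivity, by linarith⟩ ⟨by positivity, by linarith⟩ h1
          linarith
        rcases h2 with ⟨h2, h3⟩ | ⟨h2, h3, h4, h5⟩
        · rw [SS_eq, SS_eq, ← hnorm] at h3
          by_cases ha0 : ‖a‖ = 0
          · rw [norm_eq_zero.1 ha0, norm_eq_zero.1 (hnorm.symm.trans ha0)]
          · have hap : 0 < ‖a‖ := lt_of_le_of_ne (norm_nonneg _) (Ne.symm ha0)
            have hs : Real.sin (‖a‖ / 2) ≠ 0 :=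
              (Real.sin_pos_of_pos_of_lt_pi (by linarith) (by linarith)).ne'
            have h6 := smul_right_injective V hs h3
            have h7 := smul_right_injective V (inv_ne_zero ha0) h6
            rw [h7]
        · have hap : ‖a‖ = π := by
            by_contra hne
            have h6 : ‖a‖ < π := lt_of_le_of_ne ha hne
            have h7 : 0 < cc a := Real.cos_pos_of_mem_Ioo ⟨by linarith [norm_nonneg a], by linarith⟩
            exact h7.ne' h2
          have ha0 : a ≠ 0 := by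
            rw [← norm_ne_zero_iff, hap]
            exact hpi.ne'
          have hb0 : b ≠ 0 := by
            rw [← norm_ne_zero_iff, ← hnorm, hap]
            exact hpi.ne'
          refine (hE.cut a b hap (by rw [← hnorm, hap])).2 ?_
          have e1 : P (SS a) = P a := h.eq_of_mem _ _ ((P a).smul_mem _ (h.mem a)) (SS_ne_zero ha0 ha)
          rw [e1] at h5
          have e2 : b = (‖b‖ / Real.sin (‖b‖ / 2)) • SS b := by
            unfold SS
            rw [smul_smul]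
            have e3 : ‖b‖ ≠ 0 := norm_ne_zero_iff.2 hb0
            have e4 : Real.sin (‖b‖ / 2) ≠ 0 := by
              rw [← hnorm, hap, Real.sin_pi_div_two]
              exact one_ne_zero
            have e5 : ‖b‖ / Real.sin (‖b‖ / 2) * (Real.sin (‖b‖ / 2) / ‖b‖) = 1 := by field_simp
            rw [e5, one_smul]
          rw [e2]
          exact (P a).smul_mem _ h5
      rw [heq, dist_self] at hpos
      unfold DD at hpos
      have := Real.arccos_nonneg (√(FP P a b))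
      linarith
    · exact h0
  have ha0 : a ≠ 0 := by
    rintro rfl
    rw [DD_zero_left h hb, hE.dist0 b hb] at hpos
    have := norm_nonneg b
    nlinarith
  have hb0 : b ≠ 0 := by
    rintro rfl
    rw [DD_symm h, DD_zero_left h ha, dist_comm, hE.dist0 a ha] at hpos
    have := norm_nonneg a
    nlinarith
  -- case A
  have caseA : ∀ a b : V, a ≠ 0 → ‖a‖ < π → ‖b‖ ≤ π → 0 < FP P a b → FP P a b < 1 →
      (∀ a' b' : V, ‖a'‖ ≤ π → ‖b'‖ ≤ π →
      l * dist (e a') (e b') - DD P a' b' ≤ l * dist (e a) (e b) - DD P a b) → False := by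
    intro a b ha0 ha1 hb hF0 hF1 hm
    obtain ⟨η, hη⟩ := TT_surj h ha0 ha1 (GG P (cc a) (Real.sin (‖a‖ / 2)) (‖a‖⁻¹ • a) (cc b) (SS b))
    have hc : HasDerivAt (fun τ : ℝ => a + τ • η) η 0 := by
      have := ((hasDerivAt_id (0 : ℝ)).smul_const η).const_add a
      simpa using this
    refine no_move h hE hl0.le hl1 ha0 ha1.le hF0 hF1 hη (c := fun τ => a + τ • η) (by simp) hc ?_
    have h1 : ∀ᶠ τ in 𝓝 (0 : ℝ), ‖a + τ • η‖ < π := by
      have h2 : ContinuousAt (fun τ : ℝ => ‖a + τ • η‖) 0 := by fun_prop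
      refine h2.eventually (gt_mem_nhds ?_)
      simpa using ha1
    filter_upwards [nhdsWithin_le_nhds h1] with τ h2
    exact hm _ _ h2.le hb
  rcases lt_or_eq_of_le ha with ha1 | ha1
  · exact caseA a b ha0 ha1 hb hF0 hF1 hmax'
  rcases lt_or_eq_of_le hb with hb1 | hb1
  · refine caseA b a hb0 hb1 ha (by rw [h.FP_symm]; exact hF0) (by rw [h.FP_symm]; exact hF1) fun a' b' h1 h2 => ?_
    rw [dist_comm, DD_symm h, dist_comm (e b), DD_symm h b]
    exact hmax' b' a' h2 h1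
  -- both on the cut locus
  obtain ⟨v, hv⟩ : ∃ v, v = ‖a‖⁻¹ • a := ⟨_, rfl⟩
  have hn : ‖a‖ ≠ 0 := norm_ne_zero_iff.2 ha0
  have hv1 : ‖v‖ = 1 := by rw [hv, norm_smul, norm_inv, norm_norm, inv_mul_cancel₀ hn]
  have hvv : ⟪v, v⟫ = (1 : ℝ) := by rw [real_inner_self_eq_norm_sq, hv1]; norm_num
  have hPv : P v = P a := by rw [hv]; exact h.P_unit ha0
  have hav : a = π • v := by rw [hv, smul_smul, ha1, mul_inv_cancel₀ hpi.ne', one_smul]
  have hca : cc a = 0 := by unfold cc; rw [ha1]; exact Real.cos_pi_div_two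
  have hcb : cc b = 0 := by unfold cc; rw [hb1]; exact Real.cos_pi_div_two
  have hsa : Real.sin (‖a‖ / 2) = 1 := by rw [ha1]; exact Real.sin_pi_div_two
  obtain ⟨G, hG⟩ : ∃ G, G = GG P (cc a) (Real.sin (‖a‖ / 2)) (‖a‖⁻¹ • a) (cc b) (SS b) := ⟨_, rfl⟩
  obtain ⟨n, hnn⟩ : ∃ n, n = ‖(P v).starProjection (SS b)‖ ^ 2 := ⟨_, rfl⟩
  have hG1 : G = ZZ P 1 v (SS b) - n • v := by
    rw [hG, hca, hcb, hsa, ← hv]
    unfold GG Fs
    rw [← hnn]
    simp
  have hGP : ∀ u ∈ P a, ⟪G, u⟫ = 0 := by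
    intro u hu
    rw [← hPv] at hu
    have h1 : u - ⟪v, u⟫ • v ∈ P v := (P v).sub_mem hu ((P v).smul_mem _ (h.mem v))
    have h2 : ⟪v, u - ⟪v, u⟫ • v⟫ = 0 := by rw [inner_sub_right, inner_smul_right, hvv]; ring
    have h3 := h.ZZ_inner_P hv1 1 (SS b) h1 h2
    have h4 := h.ZZ_inner_self hv1 1 (SS b)
    rw [inner_sub_right, inner_smul_right, h4, ← hnn] at h3
    rw [hG1, inner_sub_left, inner_smul_left]
    simp only [conj_trivial]
    linarith
  have hGv : ⟪v, G⟫ = 0 := by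
    rw [real_inner_comm]
    exact hGP v (by rw [← hPv]; exact h.mem v)
  have hGproj : (P a).starProjection G = 0 := by
    rw [(P a).starProjection_apply_eq_zero_iff]
    rw [Submodule.mem_orthogonal']
    exact hGP
  have hGn : ‖G‖ ^ 2 = FP P a b * (1 - FP P a b) := by
    have hcs : cc a ^ 2 + Real.sin (‖a‖ / 2) ^ 2 = 1 := Real.cos_sq_add_sin_sq _
    rw [hG, h.GG_norm (by rw [← hv]; exact hv1) hcs (cc_SS b), ← SS_eq]
    rfl
  have hGn1 : ‖G‖ ≤ 1 := by
    have h1 : ‖G‖ ^ 2 ≤ 1 := by rw [hGn]; nlinarith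
    nlinarith [norm_nonneg G]
  obtain ⟨η, hη⟩ : ∃ η, η = (π / 2) • G := ⟨_, rfl⟩
  have hTη : TT P a η = G := by
    unfold TT
    rw [← hv, hη, map_smul, hGproj, inner_smul_right, hGv, ha1]
    rw [Real.sin_pi_div_two]
    simp only [mul_zero, smul_zero, sub_zero, zero_smul, zero_add, mul_one]
    rw [smul_smul]
    have : 2 / π * (π / 2) = 1 := by field_simp
    rw [this, one_smul]
  have hc : HasDerivAt (fun τ : ℝ => Real.cos τ • a + Real.sin τ • η) η 0 := by
    have h1 : HasDerivAt (fun τ : ℝ => Real.cos τ • a + Real.sin τ • η) ((-Real.sin 0) • a + Real.cos 0 • η) 0 :=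
      ((Real.hasDerivAt_cos 0).smul_const a).add ((Real.hasDerivAt_sin 0).smul_const η)
    rw [Real.sin_zero, Real.cos_zero, neg_zero, zero_smul, zero_add, one_smul] at h1
    exact h1
  refine no_move h hE hl0.le hl1 ha0 ha hF0 hF1 (hTη.trans hG) (c := fun τ => Real.cos τ • a + Real.sin τ • η)
    (by simp) hc ?_
  refine Filter.Eventually.of_forall fun τ => hmax' _ _ ?_ hb
  have h1 : ‖Real.cos τ • a + Real.sin τ • η‖ ^ 2 ≤ π ^ 2 := by
    have e1 : ⟪a, η⟫ = 0 := by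
      rw [hav, hη, inner_smul_left, inner_smul_right, hGv]
      simp
    have e2 : ‖η‖ ≤ π := by
      rw [hη, norm_smul, Real.norm_of_nonneg (by positivity)]
      nlinarith
    have e3 : ‖η‖ ^ 2 ≤ π ^ 2 := pow_le_pow_left₀ (norm_nonneg _) e2 2
    rw [norm_add_sq_real, norm_smul, norm_smul, mul_pow, mul_pow, inner_smul_left, inner_smul_right, e1, ha1,
      Real.norm_eq_abs, Real.norm_eq_abs, sq_abs, sq_abs]
    have e4 := Real.cos_sq_add_sin_sq τ
    have e5 : Real.sin τ ^ 2 * ‖η‖ ^ 2 ≤ Real.sin τ ^ 2 * π ^ 2 := by gcongr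
    nlinarith
  exact (pow_le_pow_iff_left₀ (norm_nonneg _) hpi.le two_ne_zero).1 h1

end stepA

end Pool.Agent.Lib.MP_ccbbf6_gt.CL
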