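import Pool.Agent.Lib.MP_ccbbf6_gt.CL.DfC

/-!
# Level 3.5, block Q4, step B: `D ≤ d`, and the distance formula (helper67)
-/

set_option autoImplicit false

open Set Filter Topology Metric Real
open scoped RealInnerProductSpace

noncomputable section

namespace Pool.Agent.Lib.MP_ccbbf6_gt.CL

open SymPart (GG ZZ Fs)

section oneD

/-- mean value inequality with right slopes on the open interval -/
theorem mv_open {F : ℝ → ℝ} {a b : ℝ} (hab : a ≤ b) (hc : ContinuousOn F (Icc a b))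
    (hs : ∀ x ∈ Ioo a b, ∀ ε : ℝ, 0 < ε → ∀ᶠ z in 𝓝[>] x, F z - F x ≤ (1 + ε) * (z - x)) :
    F b - F a ≤ b - a := by
  rcases eq_or_lt_of_le hab with rfl | hab
  · simp
  have key : ∀ a' ∈ Ioo a b, F b - F a' ≤ b - a' := by
    intro a' ha'
    have h1 : ∀ δ : ℝ, 0 < δ → F b ≤ F a' + (1 + δ) * (b - a') := by
      intro δ hδ
      have h2 := image_le_of_liminf_slope_right_lt_deriv_boundary' (f := F) (f' := fun _ => 1 + δ / 2) (a := a')
        (b := b) (B := fun x => F a' + (1 + δ) * (x - a')) (B' := fun _ => 1 + δ)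
        (hc.mono (Icc_subset_Icc_left ha'.1.le)) ?_ (by simp) (by fun_prop) ?_ ?_ (right_mem_Icc.2 ha'.2.le)
      · exact h2
      · intro x hx r hr
        have hr' : 0 < r - 1 := by linarith
        have h3 := hs x ⟨lt_of_lt_of_le ha'.1 hx.1, hx.2⟩ ((r - 1) / 2) (by linarith)
        refine Filter.Eventually.frequently ?_
        filter_upwards [h3, self_mem_nhdsWithin] with z h4 h5
        have h6 : 0 < z - x := sub_pos.2 h5
        rw [slope_def_field, div_lt_iff₀ h6]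
        refine lt_of_le_of_lt h4 ?_
        exact mul_lt_mul_of_pos_right (by linarith) h6
      · intro x _
        have h3 : HasDerivAt (fun x : ℝ => F a' + (1 + δ) * (x - a')) ((1 + δ) * 1) x :=
          (((hasDerivAt_id x).sub_const a').const_mul (1 + δ)).const_add (F a')
        rw [mul_one] at h3
        exact h3.hasDerivWithinAt
      · intro x _ _
        linarith
    have h3 : Tendsto (fun δ : ℝ => F a' + (1 + δ) * (b - a')) (𝓝[>] 0) (𝓝 (F a' + (1 + 0) * (b - a'))) := by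
      apply Tendsto.mono_left _ nhdsWithin_le_nhds
      have : Continuous fun δ : ℝ => F a' + (1 + δ) * (b - a') := by fun_prop
      exact this.tendsto 0
    have h4 := ge_of_tendsto h3 (by filter_upwards [self_mem_nhdsWithin] with δ hδ using h1 δ hδ)
    linarith
  have hlim : Tendsto F (𝓝[>] a) (𝓝 (F a)) := by
    have h1 : ContinuousWithinAt F (Icc a b) a := hc a (left_mem_Icc.2 hab.le)
    exact h1.mono_of_mem_nhdsWithin (Icc_mem_nhdsGT hab)
  have h2 : Tendsto (fun a' => F b - F a' - (b - a')) (𝓝[>] a) (𝓝 (F b - F a - (b - a))) :=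
    (tendsto_const_nhds.sub hlim).sub (tendsto_const_nhds.sub (tendsto_id.mono_left nhdsWithin_le_nhds))
  have h3 : F b - F a - (b - a) ≤ 0 := by
    refine le_of_tendsto h2 ?_
    filter_upwards [Ioo_mem_nhdsGT hab] with a' ha'
    have := key a' ha'
    linarith
  linarith

/-- the same with finitely many exceptional points -/
theorem mv_finset (S : Finset ℝ) {F : ℝ → ℝ} {a b : ℝ} (hab : a ≤ b) (hc : ContinuousOn F (Icc a b))
    (hs : ∀ x ∈ Ioo a b, x ∉ S → ∀ ε : ℝ, 0 < ε → ∀ᶠ z in 𝓝[>] x, F z - F x ≤ (1 + ε) * (z - x)) :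
    F b - F a ≤ b - a := by
  classical
  induction hn : S.card using Nat.strong_induction_on generalizing S a b with
  | _ n ih =>
    by_cases h : ∃ z ∈ S, z ∈ Ioo a b
    · obtain ⟨z, hz, hz'⟩ := h
      have hcard : (S.erase z).card < n := by rw [← hn]; exact Finset.card_erase_lt_of_mem hz
      have h1 := ih _ hcard (S.erase z) hz'.1.le (hc.mono (Icc_subset_Icc_right hz'.2.le)) (fun x hx hxS => by
        refine hs x ⟨hx.1, hx.2.trans hz'.2⟩ fun hxS' => hxS (Finset.mem_erase.2 ⟨hx.2.ne, hxS'⟩)) rfl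
      have h2 := ih _ hcard (S.erase z) hz'.2.le (hc.mono (Icc_subset_Icc_left hz'.1.le)) (fun x hx hxS => by
        refine hs x ⟨hz'.1.trans hx.1, hx.2⟩ fun hxS' => hxS (Finset.mem_erase.2 ⟨hx.1.ne', hxS'⟩)) rfl
      linarith
    · push Not at h
      exact mv_open hab hc fun x hx => hs x hx fun hxS => h x hxS hx

end oneD

variable {V : Type*} [NormedAddCommGroup V] [InnerProductSpace ℝ V] [FiniteDimensional ℝ V]
  {M : Type*} [MetricSpace M]

section local_est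

variable {P : V → Submodule ℝ V} {e : V → M} (h : SymPart P) (hE : ExpPol P e)

include h in
/-- `D(., y)` has slopes at most `1` in the metric `|TT|` -/
theorem DD_local {x : V} (hx : x ≠ 0) (y : V) (hF0 : 0 < FP P x y) (hF1 : FP P x y < 1) (ε : ℝ) (hε : 0 < ε) :
    ∀ᶠ η in 𝓝 (0 : V), |DD P (x + η) y - DD P x y| ≤ ‖TT P x η‖ + ε * ‖η‖ := by
  obtain ⟨F, hF⟩ : ∃ F, F = FP P x y := ⟨_, rfl⟩
  obtain ⟨R, hR⟩ : ∃ R, R = √(F * (1 - F)) := ⟨_, rfl⟩
  rw [← hF] at hF0 hF1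
  have hF2 : 0 < 1 - F := by linarith
  have hR0 : 0 < R := by rw [hR]; exact Real.sqrt_pos.2 (mul_pos hF0 hF2)
  have hn : ‖x‖ ≠ 0 := norm_ne_zero_iff.2 hx
  have hv1 : ‖‖x‖⁻¹ • x‖ = 1 := by rw [norm_smul, norm_inv, norm_norm, inv_mul_cancel₀ hn]
  obtain ⟨G, hG⟩ : ∃ G, G = GG P (cc x) (Real.sin (‖x‖ / 2)) (‖x‖⁻¹ • x) (cc y) (SS y) := ⟨_, rfl⟩
  have hGn : ‖G‖ = R := by
    have hcs : cc x ^ 2 + Real.sin (‖x‖ / 2) ^ 2 = 1 := Real.cos_sq_add_sin_sq _
    have h1 : ‖G‖ ^ 2 = F * (1 - F) := by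
      rw [hG, h.GG_norm hv1 hcs (cc_SS y), ← SS_eq, hF]
      rfl
    rw [hR, ← h1, Real.sqrt_sq (norm_nonneg _)]
  obtain ⟨L, hL, hL'⟩ := h.hasFDerivAt_FP hx y
  have hs0 : 0 < √F := Real.sqrt_pos.2 hF0
  have hs1 : √F < 1 := by
    rw [Real.sqrt_lt' one_pos]
    linarith
  have hs2 : 0 < √(1 - F) := Real.sqrt_pos.2 hF2
  have hRR : R = √F * √(1 - F) := by rw [hR, Real.sqrt_mul hF0.le]
  have h1 : HasFDerivAt (fun x => √(FP P x y)) ((1 / (2 * √F)) • L) x := by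
    have := hL.sqrt (by rw [← hF]; exact hF0.ne')
    rw [← hF] at this
    exact this
  have h2 : HasDerivAt Real.arccos (-(1 / √(1 - √F ^ 2))) (√(FP P x y)) := by
    rw [← hF]
    exact Real.hasDerivAt_arccos (by linarith) hs1.ne
  have h3 := (h2.comp_hasFDerivAt x h1).const_mul 2
  have h4 : HasFDerivAt (fun x => DD P x y) ((2 : ℝ) • (-(1 / √(1 - √F ^ 2)) • ((1 / (2 * √F)) • L))) x := h3
  have h5 := h4.isLittleO
  have h6 : ∀ᶠ x' in 𝓝 x, ‖DD P x' y - DD P x y - ((2 : ℝ) • (-(1 / √(1 - √F ^ 2)) • ((1 / (2 * √F)) • L))) (x' - x)‖ ≤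
      ε * ‖x' - x‖ := h5.def hε
  have h7 : Tendsto (fun η : V => x + η) (𝓝 0) (𝓝 x) := by
    have : Continuous fun η : V => x + η := by fun_prop
    have h8 := this.tendsto 0
    rwa [add_zero] at h8
  filter_upwards [h7.eventually h6] with η h8
  rw [add_sub_cancel_left] at h8
  have h9 : ((2 : ℝ) • (-(1 / √(1 - √F ^ 2)) • ((1 / (2 * √F)) • L))) η = -(1 / R) * ⟪TT P x η, G⟫ := by
    show 2 * (-(1 / √(1 - √F ^ 2)) * ((1 / (2 * √F)) * L η)) = _
    rw [hL', ← hG, Real.sq_sqrt hF0.le, hRR]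
    field_simp
  rw [h9] at h8
  have h10 : |⟪TT P x η, G⟫| ≤ ‖TT P x η‖ * R := by
    rw [← hGn]
    exact abs_real_inner_le_norm _ _
  have h11 : |-(1 / R) * ⟪TT P x η, G⟫| ≤ ‖TT P x η‖ := by
    rw [abs_mul, abs_neg, abs_of_pos (by positivity : 0 < 1 / R)]
    calc 1 / R * |⟪TT P x η, G⟫| ≤ 1 / R * (‖TT P x η‖ * R) := by gcongr
      _ = ‖TT P x η‖ := by field_simp
  rw [Real.norm_eq_abs] at h8
  have h12 := abs_le.1 h8
  have h13 := abs_le.1 h11
  rw [abs_le]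
  constructor <;> linarith [h12.1, h12.2, h13.1, h13.2]

include h in
theorem TT_lower {x : V} (hx : x ≠ 0) (hx' : ‖x‖ < π) : ∃ m : ℝ, 0 < m ∧ ∀ η, m * ‖η‖ ≤ ‖TT P x η‖ := by
  have hsurj : Function.Surjective (TL P x : V →ₗ[ℝ] V) := fun ξ => TT_surj h hx hx' ξ
  have hinj : Function.Injective (TL P x : V →ₗ[ℝ] V) := LinearMap.injective_iff_surjective.2 hsurj
  obtain ⟨K, hK, hL⟩ := (TL P x : V →ₗ[ℝ] V).exists_antilipschitzWith (LinearMap.ker_eq_bot.2 hinj)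
  refine ⟨(K : ℝ)⁻¹, by positivity, fun η => ?_⟩
  have h1 := hL.le_mul_dist η 0
  rw [map_zero, dist_zero_right, dist_zero_right] at h1
  rw [inv_mul_le_iff₀ (by positivity)]
  exact h1

include h hE in
/-- slopes of `D` along a curve parametrised by arc length -/
theorem slope_le {x : V} (hx : x ≠ 0) (hx' : ‖x‖ < π) (y : V) (hF0 : 0 < FP P x y) (hF1 : FP P x y < 1)
    {X : ℝ → V} {τ₀ : ℝ} (hX0 : X τ₀ = x) (hXc : ContinuousAt X τ₀)
    (hd : ∀ᶠ τ in 𝓝[>] τ₀, dist (e x) (e (X τ)) ≤ τ - τ₀) (ε : ℝ) (hε : 0 < ε) :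
    ∀ᶠ τ in 𝓝[>] τ₀, |DD P (X τ) y - DD P x y| ≤ (1 + ε) * (τ - τ₀) := by
  obtain ⟨m, hm, hmT⟩ := TT_lower h hx hx'
  obtain ⟨δ, hδ0, hδm, hδε⟩ : ∃ δ : ℝ, 0 < δ ∧ δ ≤ m / 2 ∧ 4 * δ ≤ ε * m := by
    refine ⟨min (m / 2) (ε * m / 4), by positivity, min_le_left _ _, ?_⟩
    have := min_le_right (m / 2) (ε * m / 4)
    linarith
  have hlim : Tendsto (fun τ => X τ - x) (𝓝[>] τ₀) (𝓝 0) := by
    have h1 : Tendsto X (𝓝[>] τ₀) (𝓝 x) := by
      have := hXc.tendsto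
      rw [hX0] at this
      exact this.mono_left nhdsWithin_le_nhds
    have h2 : Tendsto (fun τ => X τ - x) (𝓝[>] τ₀) (𝓝 (x - x)) := h1.sub_const x
    rwa [sub_self] at h2
  filter_upwards [hlim.eventually (hE.metric x hx hx'.le δ hδ0), hlim.eventually (DD_local h hx y hF0 hF1 δ hδ0), hd,
    self_mem_nhdsWithin] with τ h1 h2 h3 h4
  rw [add_sub_cancel] at h1 h2
  obtain ⟨η, hη⟩ : ∃ η, η = X τ - x := ⟨_, rfl⟩
  rw [← hη] at h1 h2
  have h5 := (abs_le.1 h1).1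
  have h6 := hmT η
  have h7 : 0 ≤ ‖η‖ := norm_nonneg η
  have h8 : m / 2 * ‖η‖ ≤ τ - τ₀ := by nlinarith
  have h9 : 0 < τ - τ₀ := sub_pos.2 h4
  have h10 : 2 * δ * ‖η‖ ≤ ε * (τ - τ₀) := by
    have : 2 * δ * ‖η‖ ≤ ε * (m / 2 * ‖η‖) := by nlinarith
    refine this.trans ?_
    gcongr
  refine h2.trans ?_
  linarith

end local_est

end Pool.Agent.Lib.MP_ccbbf6_gt.CL
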