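import Pool.Agent.Lib.MP_ccbbf6_gt.CL.DfD

/-!
# Level 3.5, block Q4: the distance formula (helper67)
-/

set_option autoImplicit false

open Set Filter Topology Metric Real
open scoped RealInnerProductSpace

noncomputable section

namespace Pool.Agent.Lib.MP_ccbbf6_gt.CL

variable {V : Type*} [NormedAddCommGroup V] [InnerProductSpace ℝ V] [FiniteDimensional ℝ V]
  {M : Type*} [MetricSpace M]

theorem proj_congr {U W : Submodule ℝ V} (hUW : U = W) (z : V) : U.starProjection z = W.starProjection z := by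
  subst hUW
  rfl

section one

variable {P : V → Submodule ℝ V} {e : V → M} (h : SymPart P) (hE : ExpPol P e)

include h in
theorem FP_self (x : V) : FP P x x = 1 := by
  unfold FP FF NN
  rw [(P (SS x)).starProjection_eq_self_iff.2 (h.mem _), real_inner_self_eq_norm_sq]
  have := cc_SS x
  nlinarith

include h in
theorem DD_self (x : V) : DD P x x = 0 := by
  unfold DD
  rw [FP_self h, Real.sqrt_one, Real.arccos_one, mul_zero]

include h hE in
/-- `D` only depends on the points of `M` -/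
theorem DD_wd {x x' : V} (y : V) (hx : ‖x‖ ≤ π) (hx' : ‖x'‖ ≤ π) (hee : e x = e x') : DD P x y = DD P x' y := by
  have h1 : ‖x‖ = ‖x'‖ := by rw [← hE.dist0 x hx, ← hE.dist0 x' hx', hee]
  rcases lt_or_eq_of_le hx with h2 | h2
  · rw [hE.inj x x' h2 (by rw [← h1]; exact h2) hee]
  · have hpi := Real.pi_pos
    have h2' : ‖x'‖ = π := by rw [← h1, h2]
    have hx0 : x ≠ 0 := by rw [← norm_ne_zero_iff, h2]; exact hpi.ne'
    have hx0' : x' ≠ 0 := by rw [← norm_ne_zero_iff, h2']; exact hpi.ne'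
    have h3 : x' ∈ P x := (hE.cut x x' h2 h2').1 hee
    have h4 : P x' = P x := h.eq_of_mem _ _ h3 hx0'
    have h5 : ∀ z : V, z ≠ 0 → ‖z‖ = π → P (SS z) = P z := fun z hz hz' =>
      h.eq_of_mem _ _ ((P z).smul_mem _ (h.mem z)) (SS_ne_zero hz hz'.le)
    have h6 : ∀ z : V, ‖z‖ = π → cc z = 0 := fun z hz => by
      unfold cc
      rw [hz]
      exact Real.cos_pi_div_two
    have h7 : ∀ z : V, ‖z‖ = π → ‖SS z‖ = 1 := fun z hz => by
      rw [norm_SS, hz, Real.sin_pi_div_two, abs_one]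
    have h8 : NN P (SS x) (SS y) = NN P (SS x') (SS y) := by
      unfold NN
      rw [proj_congr ((h5 x hx0 h2).trans (h4.symm.trans (h5 x' hx0' h2').symm)), h7 x h2, h7 x' h2']
    have h9 : FP P x y = FP P x' y := by
      unfold FP FF
      rw [h8, h6 x h2, h6 x' h2']
      simp
    unfold DD
    rw [h9]

include h hE in
/-- the function `D(., y)` on `M` -/
theorem exists_g (y : V) : ∃ g : M → ℝ, Continuous g ∧ ∀ x : V, ‖x‖ ≤ π → g (e x) = DD P x y := by
  choose X hX hX' using hE.surj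
  refine ⟨fun q => DD P (X q) y, ?_, fun x hx => DD_wd h hE y (hX _) hx (hX' _)⟩
  let K := Metric.closedBall (0 : V) π
  have : CompactSpace K := isCompact_iff_compactSpace.1 (isCompact_closedBall 0 π)
  let f : K → M := fun x => e x
  have hf : Continuous f := hE.cont.comp continuous_subtype_val
  have hsurj : Function.Surjective f := by
    intro q
    exact ⟨⟨X q, mem_closedBall_zero_iff.2 (hX q)⟩, hX' q⟩
  have hquot : IsQuotientMap f := (hf.isClosedMap).isQuotientMap hf hsurj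
  rw [hquot.continuous_iff]
  have : (fun q => DD P (X q) y) ∘ f = fun x : K => DD P (x : V) y := by
    funext x
    exact DD_wd h hE y (hX _) (mem_closedBall_zero_iff.1 x.2) (hX' _)
  rw [this]
  have h1 : Continuous fun x : K => ((x : V), y) := continuous_subtype_val.prodMk continuous_const
  have h2 := Continuous.comp (g := fun p : V × V => DD P p.1 p.2) (f := fun x : K => ((x : V), y)) (continuous_DD h) h1
  exact h2

include hE in
/-- continuity of the inverse of `e` inside the ball -/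
theorem X_cont {X : M → V} (hX : ∀ q, ‖X q‖ ≤ π) (hX' : ∀ q, e (X q) = q) {q : M} (hq : ‖X q‖ < π) :
    ContinuousAt X q := by
  rw [ContinuousAt, _root_.tendsto_nhds]
  intro U hU hqU
  have hK : IsCompact (Metric.closedBall (0 : V) π \ U) := (isCompact_closedBall 0 π).diff hU
  have hcl : IsClosed (e '' (Metric.closedBall (0 : V) π \ U)) := (hK.image hE.cont).isClosed
  have hnot : q ∉ e '' (Metric.closedBall (0 : V) π \ U) := by
    rintro ⟨z, ⟨hz1, hz2⟩, hz3⟩
    rw [mem_closedBall_zero_iff] at hz1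
    have h1 : ‖z‖ = ‖X q‖ := by rw [← hE.dist0 z hz1, ← hE.dist0 (X q) (hX q), hz3, hX']
    have h2 : z = X q := hE.inj _ _ (by rw [h1]; exact hq) hq (by rw [hz3, hX'])
    exact hz2 (by rw [h2]; exact hqU)
  filter_upwards [hcl.isOpen_compl.mem_nhds hnot] with q' hq'
  by_contra hcon
  exact hq' ⟨X q', ⟨mem_closedBall_zero_iff.2 (hX q'), hcon⟩, hX' q'⟩

end one

section family

variable {P : M → V → Submodule ℝ V} {e : M → V → M} (hS : ∀ p, SymPart (P p)) (hE : ∀ p, ExpPol (P p) (e p))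
  (he : ∀ p, e p 0 = p) (hdiam : ∀ p q : M, dist p q ≤ π)

include hS hE he hdiam

/-- a geodesic from `a` meets the cut locus of `p` at most once in `[0, π]`, if `d(a, p) < π` -/
theorem cut_once (a p : M) (hap : dist a p < π) {w : V} (hw : ‖w‖ = 1) {s t : ℝ} (hs0 : 0 ≤ s) (hst : s < t) (ht : t ≤ π)
    (h1 : dist p (e a (s • w)) = π) (h2 : dist p (e a (t • w)) = π) : False := by
  obtain ⟨u, hu, hup⟩ := (hE a).surj p
  have hun : ‖u‖ = dist a p := by rw [← (hE a).dist0 u hu, he, hup]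
  have hpi := Real.pi_pos
  have key : ∀ r : ℝ, 0 ≤ r → r ≤ π → dist p (e a (r • w)) = π →
      Real.cos (‖u‖ / 2) * Real.cos (r / 2) + ⟪SS u, w⟫ * Real.sin (r / 2) = 0 := by
    intro r hr0 hr1 hr2
    have hrn : ‖r • w‖ = r := by rw [norm_smul, hw, mul_one, Real.norm_of_nonneg hr0]
    have e1 := stepA (hS a) (hE a) hdiam hu (y := r • w) (by rw [hrn]; exact hr1)
    rw [hup, hr2] at e1
    have e2 : FP (P a) u (r • w) = 0 := by
      unfold DD at e1
      have e3 : π / 2 ≤ Real.arccos (√(FP (P a) u (r • w))) := by linarith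
      have e3 : √(FP (P a) u (r • w)) ≤ 0 := by
        by_contra hcon
        exact absurd (Real.arccos_lt_pi_div_two.2 (not_le.1 hcon)) (not_lt.2 e3)
      have e4 := Real.sqrt_nonneg (FP (P a) u (r • w))
      have e5 : √(FP (P a) u (r • w)) = 0 := le_antisymm e3 e4
      exact (Real.sqrt_eq_zero ((hS a).FP_nonneg _ _)).1 e5
    unfold FP FF at e2
    have e3 := (hS a).inner_sq_le (SS u) (SS (r • w))
    have e4 : (cc u * cc (r • w) + ⟪SS u, SS (r • w)⟫) ^ 2 = 0 := by
      have := sq_nonneg (cc u * cc (r • w) + ⟪SS u, SS (r • w)⟫)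
      nlinarith
    have e5 := pow_eq_zero_iff two_ne_zero |>.1 e4
    have e6 : ⟪SS u, SS (r • w)⟫ = ⟪SS u, w⟫ * Real.sin (r / 2) := by
      rcases eq_or_lt_of_le hr0 with h0 | h0
      · rw [← h0]
        unfold SS
        simp
      · unfold SS
        rw [hrn, smul_smul, div_mul_cancel₀ _ h0.ne', inner_smul_right]
        ring
    rw [e6] at e5
    unfold cc at e5
    rw [hrn] at e5
    exact e5
  have k1 := key s hs0 (hst.le.trans ht) h1
  have k2 := key t (hs0.trans hst.le) ht h2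
  have hc : 0 < Real.cos (‖u‖ / 2) :=
    Real.cos_pos_of_mem_Ioo ⟨by linarith [norm_nonneg u], by rw [hun]; linarith⟩
  have hd : Real.cos (‖u‖ / 2) * Real.sin (t / 2 - s / 2) = 0 := by
    rw [Real.sin_sub]
    linear_combination Real.sin (t / 2) * k1 - Real.sin (s / 2) * k2
  have hsin : 0 < Real.sin (t / 2 - s / 2) := Real.sin_pos_of_pos_of_lt_pi (by linarith) (by linarith)
  exact (mul_pos hc hsin).ne' hd

/-- step B inside the ball -/
theorem stepB_lt (p : M) {x y : V} (hx : ‖x‖ < π) (hy : ‖y‖ ≤ π) : DD (P p) x y ≤ dist (e p x) (e p y) := by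
  have hpi := Real.pi_pos
  obtain ⟨g, hgc, hg⟩ := exists_g (hS p) (hE p) y
  obtain ⟨a, ha⟩ : ∃ a, a = e p x := ⟨_, rfl⟩
  obtain ⟨b, hb⟩ : ∃ b, b = e p y := ⟨_, rfl⟩
  have hgb : g b = 0 := by rw [hb, hg y hy, DD_self (hS p)]
  have hga : g a = DD (P p) x y := by rw [ha, hg x hx.le]
  rw [← hga, ← ha, ← hb]
  by_cases hab : a = b
  · rw [hab, hgb, dist_self]
  obtain ⟨y', hy', hyb⟩ := (hE a).surj b
  have hyn : ‖y'‖ = dist a b := by rw [← (hE a).dist0 y' hy', he, hyb]
  have ht0 : 0 < dist a b := dist_pos.2 hab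
  obtain ⟨t, ht⟩ : ∃ t, t = dist a b := ⟨_, rfl⟩
  rw [← ht] at hyn ht0 ⊢
  have htpi : t ≤ π := by rw [ht]; exact hdiam a b
  obtain ⟨w, hw⟩ : ∃ w, w = t⁻¹ • y' := ⟨_, rfl⟩
  have hw1 : ‖w‖ = 1 := by
    rw [hw, norm_smul, norm_inv, Real.norm_of_nonneg ht0.le, hyn, inv_mul_cancel₀ ht0.ne']
  have htw : t • w = y' := by rw [hw, smul_smul, mul_inv_cancel₀ ht0.ne', one_smul]
  obtain ⟨c, hc⟩ : ∃ c : ℝ → M, c = fun τ => e a (τ • w) := ⟨_, rfl⟩
  have hc0 : c 0 = a := by rw [hc]; simp [he]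
  have hct : c t = b := by rw [hc]; simp only; rw [htw, hyb]
  have hcc : Continuous c := by
    rw [hc]
    exact (hE a).cont.comp (by fun_prop)
  have hcd : ∀ s r : ℝ, |s - r| ≤ π → dist (c s) (c r) = |s - r| := by
    rw [hc]
    exact (hE a).ray w hw1
  have hap : dist a p < π := by
    rw [ha, dist_comm]
    have := (hE p).dist0 x hx.le
    rw [he] at this
    rw [this]
    exact hx
  -- the function along the geodesic
  obtain ⟨f, hf⟩ : ∃ f : ℝ → ℝ, f = fun τ => g (c τ) := ⟨_, rfl⟩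
  have hfc : Continuous f := by rw [hf]; exact hgc.comp hcc
  have hft : f t = 0 := by rw [hf]; simp only; rw [hct, hgb]
  have hf0 : f 0 = g a := by rw [hf]; simp only; rw [hc0]
  rw [← hf0]
  choose X hX hX' using (hE p).surj
  have hfX : ∀ τ, f τ = DD (P p) (X (c τ)) y := by
    intro τ
    rw [hf]
    simp only
    rw [← hg _ (hX _), hX']
  have hf_le : ∀ τ, f τ ≤ π := fun τ => by rw [hfX]; exact DD_le_pi (hS p) _ _
  have hf_ge : ∀ τ, 0 ≤ f τ := fun τ => by
    rw [hfX]
    unfold DD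
    have := Real.arccos_nonneg (√(FP (P p) (X (c τ)) y))
    linarith
  have hXn : ∀ τ, ‖X (c τ)‖ = dist p (c τ) := fun τ => by
    rw [← (hE p).dist0 _ (hX _), he, hX']
  -- exceptional points
  have hex : ∃ S : Finset ℝ, ∀ τ, 0 ≤ τ → τ ≤ π → τ ∉ S → c τ ≠ p ∧ dist p (c τ) ≠ π := by
    classical
    have h1 : ∃ S : Finset ℝ, ∀ τ, 0 ≤ τ → τ ≤ π → c τ = p → τ ∈ S := by
      by_cases h : ∃ τ, 0 ≤ τ ∧ τ ≤ π ∧ c τ = p
      · obtain ⟨z, hz0, hz1, hz2⟩ := h
        refine ⟨{z}, fun τ h0 h1 h2 => ?_⟩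
        rw [Finset.mem_singleton]
        have h3 := hcd τ z (by rw [abs_le]; constructor <;> linarith)
        rw [h2, hz2, dist_self] at h3
        have h4 := abs_eq_zero.1 h3.symm
        linarith
      · exact ⟨∅, fun τ h0 h1 h2 => absurd ⟨τ, h0, h1, h2⟩ h⟩
    have h2 : ∃ S : Finset ℝ, ∀ τ, 0 ≤ τ → τ ≤ π → dist p (c τ) = π → τ ∈ S := by
      by_cases h : ∃ τ, 0 ≤ τ ∧ τ ≤ π ∧ dist p (c τ) = π
      · obtain ⟨z, hz0, hz1, hz2⟩ := h
        refine ⟨{z}, fun τ h0 h1 h2 => ?_⟩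
        rw [Finset.mem_singleton]
        rw [hc] at h2 hz2
        rcases lt_trichotomy τ z with h3 | h3 | h3
        · exact (cut_once hS hE he hdiam a p hap hw1 h0 h3 hz1 h2 hz2).elim
        · exact h3
        · exact (cut_once hS hE he hdiam a p hap hw1 hz0 h3 h1 hz2 h2).elim
      · exact ⟨∅, fun τ h0 h1 h2 => absurd ⟨τ, h0, h1, h2⟩ h⟩
    obtain ⟨S1, hS1⟩ := h1
    obtain ⟨S2, hS2⟩ := h2
    refine ⟨S1 ∪ S2, fun τ h0 h1 h2 => ?_⟩
    rw [Finset.mem_union, not_or] at h2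
    exact ⟨fun h3 => h2.1 (hS1 τ h0 h1 h3), fun h3 => h2.2 (hS2 τ h0 h1 h3)⟩
  obtain ⟨S, hSx⟩ := hex
  -- the mean value inequality on [z, t] if f < π on (z, t)
  have key : ∀ z, 0 ≤ z → z ≤ t → (∀ τ ∈ Ioo z t, f τ < π) → f z - f t ≤ t - z := by
    intro z hz0 hzt hlt
    have h1 := mv_finset S (F := fun τ => -f τ) hzt (hfc.neg.continuousOn) (fun τ hτ hτS ε hε => ?_)
    · linarith
    have hτ0 : 0 ≤ τ := by linarith [hτ.1]
    have hτpi : τ ≤ π := by linarith [hτ.2]
    obtain ⟨hne, hcut⟩ := hSx τ hτ0 hτpi hτS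
    have hxn : ‖X (c τ)‖ < π := by
      refine lt_of_le_of_ne (hX _) ?_
      rw [hXn]
      exact hcut
    have hx0 : X (c τ) ≠ 0 := by
      intro h0
      have h2 := hX' (c τ)
      rw [h0, he] at h2
      exact hne h2.symm
    have hFlt : FP (P p) (X (c τ)) y < 1 := by
      rcases lt_or_eq_of_le (SymPart.FP_le_one (P := P p) (X (c τ)) y) with h2 | h2
      · exact h2
      · exfalso
        have h3 : f τ = 0 := by
          rw [hfX]
          unfold DD
          rw [h2, Real.sqrt_one, Real.arccos_one, mul_zero]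
        have h4 := stepA (hS p) (hE p) hdiam (hX (c τ)) hy
        rw [← hfX, h3, hX', ← hb, ← hct, hcd τ t (by rw [abs_le]; constructor <;> linarith [hτ.2])] at h4
        have h5 := abs_nonpos_iff.1 h4
        linarith [hτ.2]
    have hFpos : 0 < FP (P p) (X (c τ)) y := by
      rcases eq_or_lt_of_le ((hS p).FP_nonneg (X (c τ)) y) with h2 | h2
      · exfalso
        have h3 : f τ = π := by
          rw [hfX]
          unfold DD
          rw [← h2, Real.sqrt_zero, Real.arccos_zero]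
          ring
        exact absurd (hlt τ hτ) (by rw [h3]; exact lt_irrefl _)
      · exact h2
    have h2 := slope_le (hS p) (hE p) hx0 hxn y hFpos hFlt (X := fun τ => X (c τ)) (τ₀ := τ) rfl
      ((X_cont (hE p) hX hX' hxn).comp hcc.continuousAt) ?_ ε hε
    · filter_upwards [h2] with r h3
      rw [← hfX, ← hfX] at h3
      have h4 := (abs_le.1 h3).1
      show -f r - -f τ ≤ (1 + ε) * (r - τ)
      linarith
    · have h5 : ∀ᶠ r in 𝓝[>] τ, r < τ + 1 := by
        have : Iio (τ + 1) ∈ 𝓝 τ := Iio_mem_nhds (by linarith)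
        exact mem_nhdsWithin_of_mem_nhds this
      filter_upwards [h5, self_mem_nhdsWithin] with r h6 h7
      have h7' : τ < r := h7
      rw [hX', hX', hcd τ r (by rw [abs_le]; constructor <;> linarith [Real.pi_gt_three]), abs_sub_comm,
        abs_of_nonneg (by linarith)]
  by_cases hZ : ∃ z ∈ Icc 0 t, f z = π
  · let Z : Set ℝ := Icc 0 t ∩ f ⁻¹' {π}
    have hZc : IsCompact Z := isCompact_Icc.inter_right (isClosed_singleton.preimage hfc)
    have hZne : Z.Nonempty := by
      obtain ⟨z, hz, hz'⟩ := hZ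
      exact ⟨z, hz, hz'⟩
    obtain ⟨z, hz, hzmax⟩ := hZc.exists_isGreatest hZne
    have hfz : f z = π := hz.2
    have h1 := key z hz.1.1 hz.1.2 fun τ hτ => by
      refine lt_of_le_of_ne (hf_le τ) fun h2 => ?_
      have h3 : τ ∈ Z := ⟨⟨by linarith [hz.1.1, hτ.1], hτ.2.le⟩, h2⟩
      exact absurd (hzmax h3) (not_le.2 hτ.1)
    rw [hfz, hft] at h1
    have h2 := hf_le 0
    linarith [hz.1.1]
  · have h1 := key 0 le_rfl ht0.le fun τ hτ => by
      refine lt_of_le_of_ne (hf_le τ) fun h2 => ?_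
      exact hZ ⟨τ, ⟨hτ.1.le, hτ.2.le⟩, h2⟩
    rw [hft] at h1
    linarith

/-- **Step B**: `D ≤ d` -/
theorem stepB (p : M) {x y : V} (hx : ‖x‖ ≤ π) (hy : ‖y‖ ≤ π) : DD (P p) x y ≤ dist (e p x) (e p y) := by
  have hpi := Real.pi_pos
  have h1 : ∀ r ∈ Ioo (0 : ℝ) 1, DD (P p) (r • x) y ≤ dist (e p (r • x)) (e p y) := by
    intro r hr
    refine stepB_lt hS hE he hdiam p ?_ hy
    rw [norm_smul, Real.norm_of_nonneg hr.1.le]
    rcases eq_or_lt_of_le (norm_nonneg x) with h0 | h0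
    · rw [← h0, mul_zero]
      exact hpi
    · nlinarith [hr.2]
  have hc1 : Tendsto (fun r : ℝ => DD (P p) (r • x) y) (𝓝[<] 1) (𝓝 (DD (P p) ((1 : ℝ) • x) y)) := by
    apply Tendsto.mono_left _ nhdsWithin_le_nhds
    have h1 : Continuous fun r : ℝ => (r • x, y) := by fun_prop
    have h2 := Continuous.comp (g := fun q : V × V => DD (P p) q.1 q.2) (f := fun r : ℝ => (r • x, y))
      (continuous_DD (hS p)) h1
    exact h2.tendsto 1
  have hc2 : Tendsto (fun r : ℝ => dist (e p (r • x)) (e p y)) (𝓝[<] 1) (𝓝 (dist (e p ((1 : ℝ) • x)) (e p y))) := by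
    apply Tendsto.mono_left _ nhdsWithin_le_nhds
    have h1 : Continuous fun r : ℝ => r • x := by fun_prop
    have h2 : Continuous fun r : ℝ => e p (r • x) := (hE p).cont.comp h1
    exact (h2.dist continuous_const).tendsto 1
  rw [one_smul] at hc1 hc2
  refine le_of_tendsto_of_tendsto hc1 hc2 ?_
  filter_upwards [Ioo_mem_nhdsLT (zero_lt_one (α := ℝ))] with r hr
  exact h1 r hr

/-- **The distance formula** -/
theorem dist_formula (p : M) {x y : V} (hx : ‖x‖ ≤ π) (hy : ‖y‖ ≤ π) :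
    dist (e p x) (e p y) = DD (P p) x y :=
  le_antisymm (stepA (hS p) (hE p) hdiam hx hy) (stepB hS hE he hdiam p hx hy)

/-- the distance formula, with `cos` -/
theorem cos_sq_dist (p : M) {x y : V} (hx : ‖x‖ ≤ π) (hy : ‖y‖ ≤ π) :
    Real.cos (dist (e p x) (e p y) / 2) ^ 2 = FP (P p) x y := by
  rw [dist_formula hS hE he hdiam p hx hy]
  unfold DD
  have h1 := (hS p).FP_nonneg x y
  rw [mul_div_cancel_left₀ _ (two_ne_zero), Real.cos_arccos (by linarith [Real.sqrt_nonneg (FP (P p) x y)])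
    (Real.sqrt_le_one.2 (SymPart.FP_le_one x y)), Real.sq_sqrt h1]

end family

end Pool.Agent.Lib.MP_ccbbf6_gt.CL
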