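import Pool.Agent.Lib.MP_ccbbf6_gt.ML

/-! Second order Taylor estimates used in block CZ. -/

set_option autoImplicit false

open Filter Topology Set Metric

namespace Pool.Agent.Lib.MP_ccbbf6_gt.CL

variable {V W : Type*} [NormedAddCommGroup V] [NormedSpace ℝ V] [NormedAddCommGroup W] [NormedSpace ℝ W]

theorem taylor0 {f : V → W} {x0 : V} (hf : ContDiffAt ℝ 2 f x0) :
    ∃ δ C : ℝ, 0 < δ ∧ 0 ≤ C ∧ ∀ x ∈ ball x0 δ, DifferentiableAt ℝ f x ∧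
      ‖fderiv ℝ f x - fderiv ℝ f x0‖ ≤ C * ‖x - x0‖ ∧
      ∀ y ∈ ball x0 δ, ‖f y - f x - fderiv ℝ f x (y - x)‖ ≤ C * ‖y - x‖ ^ 2 := by
  have h1 : ContDiffAt ℝ 1 (fderiv ℝ f) x0 := hf.fderiv_right (m := 1) (by norm_num)
  obtain ⟨L, t, ht, hL⟩ := h1.exists_lipschitzOnWith
  have h2 : ∀ᶠ x in 𝓝 x0, DifferentiableAt ℝ f x :=
    (hf.eventually (by simp)).mono fun x hx => hx.differentiableAt (by norm_num)
  obtain ⟨δ, hδ, hball⟩ := Metric.mem_nhds_iff.1 (inter_mem ht h2)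
  refine ⟨δ, L, hδ, L.2, fun x hx => ⟨(hball hx).2, ?_, fun y hy => ?_⟩⟩
  · exact hL.norm_sub_le (hball hx).1 (hball (mem_ball_self hδ)).1
  · have hseg : segment ℝ x y ⊆ ball x0 δ := (convex_ball x0 δ).segment_subset hx hy
    have hder : ∀ z ∈ segment ℝ x y, HasFDerivWithinAt f (fderiv ℝ f z) (segment ℝ x y) z := fun z hz =>
      (DifferentiableAt.hasFDerivAt (hball (hseg hz)).2).hasFDerivWithinAt
    have hbd : ∀ z ∈ segment ℝ x y, ‖fderiv ℝ f z - fderiv ℝ f x‖ ≤ L * ‖y - x‖ := by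
      intro z hz
      refine (hL.norm_sub_le (hball (hseg hz)).1 (hball hx).1).trans ?_
      refine mul_le_mul_of_nonneg_left ?_ L.2
      obtain ⟨a, b, ha, hb, hab, rfl⟩ := hz
      have : a • x + b • y - x = b • (y - x) := by
        have ha' : a = 1 - b := by linarith
        rw [ha', sub_smul, one_smul, smul_sub]
        abel
      rw [this, norm_smul, Real.norm_eq_abs, abs_of_nonneg hb]
      have hb1 : b ≤ 1 := by linarith
      nlinarith [norm_nonneg (y - x)]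
    have h3 := (convex_segment x y).norm_image_sub_le_of_norm_hasFDerivWithin_le' hder hbd
      (left_mem_segment ℝ x y) (right_mem_segment ℝ x y)
    calc _ ≤ _ := h3
      _ = _ := by ring

/-- Taylor expansion at `0` of a function vanishing at `0`. -/
theorem taylor_zero {f : V → W} (hf : ContDiffAt ℝ 2 f 0) :
    ∃ δ C : ℝ, 0 < δ ∧ 0 ≤ C ∧ ∀ u, ‖u‖ < δ → ‖f u - f 0 - fderiv ℝ f 0 u‖ ≤ C * ‖u‖ ^ 2 := by
  obtain ⟨δ, C, hδ, hC, h⟩ := taylor0 hf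
  refine ⟨δ, C, hδ, hC, fun u hu => ?_⟩
  have := (h 0 (mem_ball_self hδ)).2.2 u (by rwa [mem_ball_zero_iff])
  rwa [sub_zero] at this

theorem lip_zero {f : V → W} (hf : ContDiffAt ℝ 2 f 0) (h0 : f 0 = 0) :
    ∃ δ C : ℝ, 0 < δ ∧ 0 ≤ C ∧ ∀ u, ‖u‖ < δ → ‖f u‖ ≤ C * ‖u‖ := by
  obtain ⟨δ, C, hδ, hC, h⟩ := taylor_zero hf
  refine ⟨min δ 1, C + ‖fderiv ℝ f 0‖, lt_min hδ one_pos, by positivity, fun u hu => ?_⟩
  obtain ⟨h1, h2⟩ := lt_min_iff.1 hu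
  have h3 := h u h1
  rw [h0, sub_zero] at h3
  have h4 : ‖f u‖ ≤ ‖f u - fderiv ℝ f 0 u‖ + ‖fderiv ℝ f 0 u‖ := by
    simpa using norm_add_le (f u - fderiv ℝ f 0 u) (fderiv ℝ f 0 u)
  have h5 := (fderiv ℝ f 0).le_opNorm u
  have h6 : C * ‖u‖ ^ 2 ≤ C * ‖u‖ := by
    apply mul_le_mul_of_nonneg_left _ hC
    nlinarith [norm_nonneg u]
  linarith

variable {U : Type*} [NormedAddCommGroup U] [NormedSpace ℝ U]

/-- Taylor expansion in the first variable, uniform in the second. -/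
theorem taylor_fst {f : U × V → W} {v0 : V} (hf : ContDiffAt ℝ 2 f (0, v0)) :
    ∃ δ C : ℝ, 0 < δ ∧ 0 ≤ C ∧ ∀ v, ‖v - v0‖ < δ → ∀ u, ‖u‖ < δ →
      ‖f (u, v) - f (0, v) - fderiv ℝ (fun u => f (u, v)) 0 u‖ ≤ C * ‖u‖ ^ 2 := by
  obtain ⟨δ, C, hδ, hC, h⟩ := taylor0 hf
  refine ⟨δ, C, hδ, hC, fun v hv u hu => ?_⟩
  have hm : ∀ u' : U, ‖u'‖ < δ → (u', v) ∈ ball ((0 : U), v0) δ := by
    intro u' hu'
    rw [mem_ball, dist_eq_norm, Prod.mk_sub_mk, sub_zero, Prod.norm_def, max_lt_iff]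
    exact ⟨hu', hv⟩
  have h0 : ((0 : U), v) ∈ ball ((0 : U), v0) δ := hm 0 (by simpa using hδ)
  obtain ⟨hd, -, h2⟩ := h _ h0
  have h3 := h2 _ (hm u hu)
  have h4 : HasFDerivAt (fun u : U => f (u, v)) ((fderiv ℝ f (0, v)).comp (ContinuousLinearMap.inl ℝ U V)) 0 := by
    have e : HasFDerivAt (fun u : U => (u, v)) (ContinuousLinearMap.inl ℝ U V) 0 := by
      have := (hasFDerivAt_id (𝕜 := ℝ) (0 : U)).prodMk (hasFDerivAt_const v (0 : U))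
      exact this
    exact HasFDerivAt.comp (0 : U) (g := f) hd.hasFDerivAt e
  rw [h4.fderiv]
  have e2 : (u, v) - ((0 : U), v) = (u, 0) := by rw [Prod.mk_sub_mk, sub_zero, sub_self]
  rw [e2] at h3
  have e3 : ‖((u : U), (0 : V))‖ = ‖u‖ := by rw [Prod.norm_def, norm_zero]; exact max_eq_left (norm_nonneg u)
  rw [e3] at h3
  exact h3

/-- Mixed Taylor expansion. -/
theorem taylor_snd {f : U × V → W} (hf : ContDiffAt ℝ 2 f (0, 0)) :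
    ∃ δ C : ℝ, 0 < δ ∧ 0 ≤ C ∧ ∀ u v, ‖u‖ < δ → ‖v‖ < δ →
      ‖f (u, v) - f (u, 0) - fderiv ℝ (fun v => f (0, v)) 0 v‖ ≤ C * ((‖u‖ + ‖v‖) * ‖v‖) := by
  obtain ⟨δ, C, hδ, hC, h⟩ := taylor0 hf
  refine ⟨δ, C, hδ, hC, fun u v hu hv => ?_⟩
  have hm : ∀ (u' : U) (v' : V), ‖u'‖ < δ → ‖v'‖ < δ → (u', v') ∈ ball ((0 : U), (0 : V)) δ := by
    intro u' v' hu' hv'
    rw [mem_ball, dist_eq_norm, Prod.mk_sub_mk, sub_zero, sub_zero, Prod.norm_def, max_lt_iff]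
    exact ⟨hu', hv'⟩
  have hd0 := (h _ (hm 0 0 (by simpa using hδ) (by simpa using hδ))).1
  obtain ⟨-, h1, h2⟩ := h _ (hm u 0 hu (by simpa using hδ))
  have h3 := h2 _ (hm u v hu hv)
  have h4 : HasFDerivAt (fun v : V => f (0, v)) ((fderiv ℝ f (0, 0)).comp (ContinuousLinearMap.inr ℝ U V)) 0 := by
    have e : HasFDerivAt (fun v : V => ((0 : U), v)) (ContinuousLinearMap.inr ℝ U V) 0 := by
      have := (hasFDerivAt_const (0 : U) (0 : V)).prodMk (hasFDerivAt_id (𝕜 := ℝ) (0 : V))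
      exact this
    exact HasFDerivAt.comp (0 : V) (g := f) hd0.hasFDerivAt e
  rw [h4.fderiv]
  have e2 : (u, v) - (u, (0 : V)) = (0, v) := by rw [Prod.mk_sub_mk, sub_zero, sub_self]
  have e1 : (u, (0 : V)) - ((0 : U), (0 : V)) = (u, 0) := by rw [Prod.mk_sub_mk, sub_zero, sub_self]
  have n2 : ‖((0 : U), (v : V))‖ = ‖v‖ := by rw [Prod.norm_def, norm_zero]; exact max_eq_right (norm_nonneg v)
  have n1 : ‖((u : U), (0 : V))‖ = ‖u‖ := by rw [Prod.norm_def, norm_zero]; exact max_eq_left (norm_nonneg u)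
  rw [e2, n2] at h3
  rw [e1, n1] at h1
  have h5 : f (u, v) - f (u, 0) - (fderiv ℝ f (0, 0)).comp (ContinuousLinearMap.inr ℝ U V) v =
      (f (u, v) - f (u, 0) - fderiv ℝ f (u, 0) (0, v)) + (fderiv ℝ f (u, 0) - fderiv ℝ f (0, 0)) (0, v) := by
    rw [sub_apply]
    show f (u, v) - f (u, 0) - fderiv ℝ f (0, 0) (0, v) = _
    abel
  rw [h5]
  refine (norm_add_le _ _).trans ?_
  have h6 := (fderiv ℝ f (u, 0) - fderiv ℝ f (0, 0)).le_opNorm (0, v)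
  rw [n2] at h6
  have h7 : ‖fderiv ℝ f (u, 0) - fderiv ℝ f (0, 0)‖ * ‖v‖ ≤ C * ‖u‖ * ‖v‖ :=
    mul_le_mul_of_nonneg_right h1 (norm_nonneg v)
  calc _ ≤ C * ‖v‖ ^ 2 + C * ‖u‖ * ‖v‖ := add_le_add h3 (h6.trans h7)
    _ = _ := by ring

end Pool.Agent.Lib.MP_ccbbf6_gt.CL
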